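import Mathlib

/-!
# Cochains as functions on lists: simplicial coboundary, prism, bar coboundary, shuffle
-/

namespace Pool.Agent.Helper34.TF

section dl
variable {F : Type*} [AddCommGroup F] {X : Type*}

/-- simplicial coboundary of a function on lists (alternating sum of the deletions) -/
def dl (f : List X → F) : List X → F
  | [] => 0
  | a :: l => f l - dl (fun m => f (a :: m)) l

@[simp] lemma dl_nil (f : List X → F) : dl f [] = 0 := rfl
lemma dl_cons (f : List X → F) (a : X) (l : List X) :
    dl f (a :: l) = f l - dl (fun m => f (a :: m)) l := rfl

/-- prism operator of a map `ψ` -/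
def prism (ψ : X → X) (f : List X → F) : List X → F
  | [] => 0
  | a :: l => f (a :: ψ a :: l.map ψ) - prism ψ (fun m => f (a :: m)) l

@[simp] lemma prism_nil (ψ : X → X) (f : List X → F) : prism ψ f [] = 0 := rfl
lemma prism_cons (ψ : X → X) (f : List X → F) (a : X) (l : List X) :
    prism ψ f (a :: l) = f (a :: ψ a :: l.map ψ) - prism ψ (fun m => f (a :: m)) l := rfl

lemma dl_sub (f g : List X → F) (l : List X) :
    dl (fun m => f m - g m) l = dl f l - dl g l := by
  induction l generalizing f g with
  | nil => simp
  | cons a l ih => rw [dl_cons, dl_cons, dl_cons, ih]; abel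

lemma prism_sub (ψ : X → X) (f g : List X → F) (l : List X) :
    prism ψ (fun m => f m - g m) l = prism ψ f l - prism ψ g l := by
  induction l generalizing f g with
  | nil => simp
  | cons a l ih => rw [prism_cons, prism_cons, prism_cons, ih]; abel

lemma dl_map (ψ : X → X) (f : List X → F) (l : List X) :
    dl (fun m => f (m.map ψ)) l = dl f (l.map ψ) := by
  induction l generalizing f with
  | nil => simp
  | cons a l ih =>
    rw [List.map_cons, dl_cons, dl_cons]
    congr 1
    exact ih (fun m => f (ψ a :: m))

/-- the prism identity (for all lists, the empty one in degree `-1`) -/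
theorem prism_identity (ψ : X → X) (f : List X → F) (l : List X) :
    dl (prism ψ f) l + prism ψ (dl f) l = f (l.map ψ) - f l := by
  induction l generalizing f with
  | nil => simp
  | cons a l ih =>
    have h1 : dl (prism ψ f) (a :: l) = prism ψ f l
        - (dl (fun m => f (a :: ψ a :: m.map ψ)) l - dl (prism ψ (fun m => f (a :: m))) l) := by
      rw [dl_cons, ← dl_sub]; rfl
    have h2 : prism ψ (dl f) (a :: l) = dl f (a :: ψ a :: l.map ψ)
        - (prism ψ f l - prism ψ (dl (fun m => f (a :: m))) l) := by
      rw [prism_cons, ← prism_sub]; rfl
    have h3 := ih (fun m => f (a :: m))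
    have h4 := dl_map ψ (fun m => f (a :: ψ a :: m)) l
    rw [h1, h2, h4, dl_cons, dl_cons, List.map_cons]
    have h5 : dl (prism ψ (fun m => f (a :: m))) l
        = f (a :: l.map ψ) - f (a :: l) - prism ψ (dl (fun m => f (a :: m))) l := by
      rw [← h3]; abel
    rw [h5]; abel

/-- the prism of `f` at `l` only involves the lists `pre ++ a :: ψ a :: map ψ m`. -/
lemma prism_eq_zero (ψ : X → X) (f : List X → F) (l : List X)
    (h : ∀ pre a m, l = pre ++ a :: m → f (pre ++ a :: ψ a :: m.map ψ) = 0) :
    prism ψ f l = 0 := by
  induction l generalizing f with
  | nil => rfl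
  | cons a l ih =>
    have h0 := h [] a l rfl
    simp only [List.nil_append] at h0
    rw [prism_cons, h0, ih, sub_zero]
    intro pre b m hl
    have := h (a :: pre) b m (by rw [hl]; rfl)
    simpa using this

end dl

section bar
variable {F : Type*} [AddCommGroup F] {V : Type*} (op : V → V → V)

/-- inner part of the bar coboundary -/
def bar (f : List V → F) : List V → F
  | [] => 0
  | [_] => f []
  | x :: y :: l => f (op x y :: l) - bar (fun m => f (x :: m)) (y :: l)

@[simp] lemma bar_nil (f : List V → F) : bar op f [] = 0 := rfl
@[simp] lemma bar_one (f : List V → F) (x : V) : bar op f [x] = f [] := rfl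
lemma bar_cons (f : List V → F) (x y : V) (l : List V) :
    bar op f (x :: y :: l) = f (op x y :: l) - bar op (fun m => f (x :: m)) (y :: l) := rfl

/-- bar coboundary -/
def del (f : List V → F) : List V → F
  | [] => 0
  | x :: l => f l - bar op f (x :: l)

@[simp] lemma del_nil (f : List V → F) : del op f [] = 0 := rfl
lemma del_cons (f : List V → F) (x : V) (l : List V) :
    del op f (x :: l) = f l - bar op f (x :: l) := rfl

lemma bar_sub (f g : List V → F) (l : List V) :
    bar op (fun m => f m - g m) l = bar op f l - bar op g l := by
  induction l generalizing f g with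
  | nil => simp
  | cons x l ih =>
    cases l with
    | nil => rfl
    | cons y l => rw [bar_cons, bar_cons, bar_cons, ih]; abel

lemma bar_add (f g : List V → F) (l : List V) :
    bar op (fun m => f m + g m) l = bar op f l + bar op g l := by
  induction l generalizing f g with
  | nil => simp
  | cons x l ih =>
    cases l with
    | nil => rfl
    | cons y l => rw [bar_cons, bar_cons, bar_cons, ih]; abel

lemma bar_zero (l : List V) : bar op (fun _ => (0 : F)) l = 0 := by
  induction l with
  | nil => simp
  | cons x l ih =>
    cases l with
    | nil => rfl
    | cons y l => rw [bar_cons, ih]; simp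

lemma del_add (f g : List V → F) (l : List V) :
    del op (fun m => f m + g m) l = del op f l + del op g l := by
  cases l with
  | nil => simp
  | cons x l => rw [del_cons, del_cons, del_cons, bar_add]; abel

lemma del_sub (f g : List V → F) (l : List V) :
    del op (fun m => f m - g m) l = del op f l - del op g l := by
  cases l with
  | nil => simp
  | cons x l => rw [del_cons, del_cons, del_cons, bar_sub]; abel

lemma bar_congr {f g : List V → F} (l : List V)
    (h : ∀ m : List V, m.length + 1 = l.length → f m = g m) : bar op f l = bar op g l := by
  induction l generalizing f g with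
  | nil => rfl
  | cons x l ih =>
    cases l with
    | nil => exact h [] rfl
    | cons y l =>
      rw [bar_cons, bar_cons, h (op x y :: l) (by simp), ih]
      intro m hm
      exact h (x :: m) (by simp at hm ⊢; omega)

lemma del_congr {f g : List V → F} (l : List V)
    (h : ∀ m : List V, m.length + 1 = l.length → f m = g m) : del op f l = del op g l := by
  cases l with
  | nil => rfl
  | cons x l =>
    rw [del_cons, del_cons, bar_congr op (x :: l) h, h l (by simp)]

theorem bar_bar (hop : ∀ x y z, op (op x y) z = op x (op y z)) (f : List V → F) (x y : V)
    (l : List V) : bar op (fun m => bar op f (x :: m)) (y :: l) = bar op f (op x y :: l) := by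
  induction l generalizing f x y with
  | nil => rfl
  | cons z l ih =>
    rw [bar_cons, bar_cons]
    have e : (fun m => bar op f (x :: y :: m)) =
        fun m => f (op x y :: m) - bar op (fun m => f (x :: m)) (y :: m) := by
      funext m; exact bar_cons op f x y m
    have e2 := bar_cons op f (op x y) z l
    rw [e, bar_sub, ih (fun m => f (x :: m)) y z, e2, hop x y z]
    abel

theorem del_del (hop : ∀ x y z, op (op x y) z = op x (op y z)) (f : List V → F) (l : List V) :
    del op (del op f) l = 0 := by
  match l with
  | [] => rfl
  | [x] => simp [del_cons]
  | x :: y :: l =>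
    rw [del_cons, bar_cons, del_cons, del_cons]
    have e : (fun m => del op f (x :: m)) = fun m => f m - bar op f (x :: m) := rfl
    rw [e, bar_sub, bar_bar op hop]
    abel

/-- partial products starting from `a` (without `a`) -/
def pp (a : V) : List V → List V
  | [] => []
  | x :: l => op a x :: pp (op a x) l

@[simp] lemma pp_nil (a : V) : pp op a [] = [] := rfl
lemma pp_cons (a x : V) (l : List V) : pp op a (x :: l) = op a x :: pp op (op a x) l := rfl

@[simp] lemma length_pp (a : V) (l : List V) : (pp op a l).length = l.length := by
  induction l generalizing a with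
  | nil => rfl
  | cons x l ih => simp [pp_cons, ih]

theorem dl_pp (hop : ∀ x y z, op (op x y) z = op x (op y z)) (C : List V → F) (a x : V)
    (l : List V) : dl C (pp op a (x :: l)) = bar op (fun m => C (pp op a m)) (x :: l) := by
  induction l generalizing C a x with
  | nil => simp [pp_cons, dl_cons]
  | cons y l ih =>
    rw [pp_cons, dl_cons, ih, bar_cons]
    congr 1
    rw [pp_cons, pp_cons, hop]

lemma pp_map (hop : ∀ x y z, op (op x y) z = op x (op y z)) (a b : V) (l : List V) :
    pp op (op a b) l = (pp op b l).map (op a) := by
  induction l generalizing b with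
  | nil => rfl
  | cons x l ih => rw [pp_cons, pp_cons, List.map_cons, hop, ih]

/-- homogeneous to inhomogeneous -/
theorem del_of_dl (hop : ∀ x y z, op (op x y) z = op x (op y z)) (e : V) (he : ∀ x, op e x = x)
    (he' : ∀ x, op x e = x) (c : List V → F) (x : V) (l : List V)
    (hinv : c ((e :: pp op e l).map (op x)) = c (e :: pp op e l)) :
    dl c (e :: pp op e (x :: l)) = del op (fun m => c (e :: pp op e m)) (x :: l) := by
  rw [dl_cons, dl_pp op hop, del_cons]
  congr 1
  rw [← hinv, List.map_cons, he', ← pp_map op hop, he', pp_cons, he]

end bar

section ins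
variable {F : Type*} [AddCommGroup F] {V : Type*}

/-- signed insertion of `x` at all places -/
def ins (x : V) (f : List V → F) : List V → F
  | [] => f [x]
  | y :: l => f (x :: y :: l) - ins x (fun m => f (y :: m)) l

@[simp] lemma ins_nil (x : V) (f : List V → F) : ins x f [] = f [x] := rfl
lemma ins_cons (x : V) (f : List V → F) (y : V) (l : List V) :
    ins x f (y :: l) = f (x :: y :: l) - ins x (fun m => f (y :: m)) l := rfl

lemma ins_sub (x : V) (f g : List V → F) (l : List V) :
    ins x (fun m => f m - g m) l = ins x f l - ins x g l := by
  induction l generalizing f g with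
  | nil => simp
  | cons a l ih => rw [ins_cons, ins_cons, ins_cons, ih]; abel

lemma ins_neg (x : V) (f : List V → F) (l : List V) :
    ins x (fun m => - f m) l = - ins x f l := by
  induction l generalizing f with
  | nil => simp
  | cons a l ih => rw [ins_cons, ins_cons, ih]; abel

variable (op : V → V → V)

theorem bar_ins (hcomm : ∀ x y, op x y = op y x) (x y : V) (f : List V → F) (l : List V) :
    bar op (ins x f) (y :: l) = f (y :: l) - bar op f (x :: y :: l)
      + ins x (fun m => bar op f (y :: m)) l := by
  induction l generalizing f y with
  | nil => simp [bar_cons, hcomm y x]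
  | cons z l ih =>
    have e1 : (fun m => ins x f (y :: m)) =
        fun m => f (x :: y :: m) - ins x (fun m => f (y :: m)) m := by
      funext m; rfl
    have e2 : (fun m => bar op f (y :: z :: m)) =
        fun m => f (op y z :: m) - bar op (fun m => f (y :: m)) (z :: m) := by
      funext m; rfl
    rw [bar_cons, e1, bar_sub, ih z (fun m => f (y :: m)), ins_cons, ins_cons, e2, ins_sub]
    simp only [bar_cons, hcomm y x]
    abel

theorem ins_del (hcomm : ∀ x y, op x y = op y x) (x : V) (f : List V → F) (l : List V) :
    ins x (del op f) l = - del op (ins x f) l := by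
  induction l generalizing f with
  | nil => simp [del_cons]
  | cons y l ih =>
    have e : (fun m => del op f (y :: m)) = fun m => f m - bar op f (y :: m) := rfl
    rw [ins_cons, del_cons, del_cons, e, ins_sub, bar_ins op hcomm]
    abel

/-- the shuffle cycle of a list of elements -/
def shuf : List V → (List V → F) → F
  | [], g => g []
  | x :: T, g => shuf T (ins x g)

@[simp] lemma shuf_nil (g : List V → F) : shuf [] g = g [] := rfl
lemma shuf_cons (x : V) (T : List V) (g : List V → F) : shuf (x :: T) g = shuf T (ins x g) := rfl

lemma shuf_neg (T : List V) (g : List V → F) : shuf T (fun m => - g m) = - shuf T g := by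
  induction T generalizing g with
  | nil => rfl
  | cons x T ih =>
    rw [shuf_cons, shuf_cons, ← ih]
    congr 1
    funext l
    exact ins_neg x g l

theorem shuf_del (hcomm : ∀ x y, op x y = op y x) (T : List V) (g : List V → F) :
    shuf T (del op g) = 0 := by
  induction T generalizing g with
  | nil => rfl
  | cons x T ih =>
    rw [shuf_cons]
    have : ins x (del op g) = fun l => - del op (ins x g) l := by
      funext l; exact ins_del op hcomm x g l
    rw [this, shuf_neg, ih, neg_zero]

lemma ins_congr [AddCommMonoid V] (x : V) {f g : List V → F} (l : List V)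
    (h : ∀ m : List V, m.length = l.length + 1 → m.sum = x + l.sum → f m = g m) :
    ins x f l = ins x g l := by
  induction l generalizing f g with
  | nil => exact h [x] rfl (by simp)
  | cons y l ih =>
    rw [ins_cons, ins_cons, h (x :: y :: l) (by simp) (by simp), ih]
    intro m hm hs
    exact h (y :: m) (by simp [hm]) (by simp [hs]; abel)

lemma shuf_congr [AddCommMonoid V] (T : List V) {f g : List V → F}
    (h : ∀ m : List V, m.length = T.length → m.sum = T.sum → f m = g m) :
    shuf T f = shuf T g := by
  induction T generalizing f g with
  | nil => exact h [] rfl rfl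
  | cons x T ih =>
    rw [shuf_cons, shuf_cons]
    apply ih
    intro m hm hs
    apply ins_congr
    intro m' hm' hs'
    exact h m' (by simp [hm', hm]) (by simp [hs', hs])

end ins

end Pool.Agent.Helper34.TF
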