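import Mathlib

/-!
# Polynomial maps on commutative monoids (all n-fold differences vanish)
-/

namespace Pool.Agent.Helper34.TF

section deg
variable {M : Type*} [AddCommMonoid M] {A : Type*} [AddCommGroup A]

/-- all `n`-fold differences vanish -/
def K : ℕ → (M → A) → Prop
  | 0, g => ∀ x, g x = 0
  | n + 1, g => ∀ h, K n (fun x => g (x + h) - g x)

lemma K_zero_iff (g : M → A) : K 0 g ↔ ∀ x, g x = 0 := Iff.rfl
lemma K_succ_iff (n : ℕ) (g : M → A) : K (n + 1) g ↔ ∀ h, K n (fun x => g (x + h) - g x) := Iff.rfl

lemma K_of_zero (n : ℕ) {g : M → A} (hg : ∀ x, g x = 0) : K n g := by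
  induction n generalizing g with
  | zero => exact hg
  | succ n ih => intro h; apply ih; intro x; simp [hg]

lemma K_add (n : ℕ) {f g : M → A} (hf : K n f) (hg : K n g) : K n (fun x => f x + g x) := by
  induction n generalizing f g with
  | zero => intro x; simp [hf x, hg x]
  | succ n ih =>
    intro h
    have := ih (hf h) (hg h)
    have e : (fun x => f (x + h) + g (x + h) - (f x + g x)) =
        fun x => (f (x + h) - f x) + (g (x + h) - g x) := by funext x; abel
    show K n (fun x => f (x + h) + g (x + h) - (f x + g x))
    rw [e]; exact this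

lemma K_neg (n : ℕ) {f : M → A} (hf : K n f) : K n (fun x => - f x) := by
  induction n generalizing f with
  | zero => intro x; simp [hf x]
  | succ n ih =>
    intro h
    have := ih (hf h)
    have e : (fun x => - f (x + h) - (- f x)) = fun x => - (f (x + h) - f x) := by
      funext x; abel
    show K n (fun x => - f (x + h) - (- f x))
    rw [e]; exact this

lemma K_sub (n : ℕ) {f g : M → A} (hf : K n f) (hg : K n g) : K n (fun x => f x - g x) := by
  have := K_add n hf (K_neg n hg)
  simpa [sub_eq_add_neg] using this

lemma K_shift (n : ℕ) {f : M → A} (hf : K n f) (a : M) : K n (fun x => f (x + a)) := by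
  induction n generalizing f with
  | zero => intro x; exact hf _
  | succ n ih =>
    intro h
    have := ih (hf h)
    have e : (fun x => f (x + h + a) - f (x + a)) = fun x => f (x + a + h) - f (x + a) := by
      funext x; rw [add_right_comm]
    show K n (fun x => f (x + h + a) - f (x + a))
    rw [e]; exact this

lemma K_succ {n : ℕ} {f : M → A} (hf : K n f) : K (n + 1) f :=
  fun h => K_sub n (K_shift n hf h) hf

lemma K_mono {m n : ℕ} (hmn : m ≤ n) {f : M → A} (hf : K m f) : K n f := by
  induction hmn with
  | refl => exact hf
  | step _ ih => exact K_succ ih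

lemma K_comp (n : ℕ) {M' : Type*} [AddCommMonoid M'] (φ : M' →+ M) {f : M → A} (hf : K n f) :
    K n (fun x => f (φ x)) := by
  induction n generalizing f with
  | zero => intro x; exact hf _
  | succ n ih =>
    intro h
    have := ih (hf (φ h))
    simpa [map_add] using this

lemma K_hom (n : ℕ) {B : Type*} [AddCommGroup B] (ψ : A →+ B) {f : M → A} (hf : K n f) :
    K n (fun x => ψ (f x)) := by
  induction n generalizing f with
  | zero => intro x; simp [hf x]
  | succ n ih =>
    intro h
    have := ih (hf h)
    simpa [map_sub] using this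

lemma K_const (a : A) : K 1 (fun _ : M => a) := by
  intro h x; simp

lemma K_sum (n : ℕ) {κ : Type*} (s : Finset κ) {f : κ → M → A} (hf : ∀ i ∈ s, K n (f i)) :
    K n (fun x => ∑ i ∈ s, f i x) := by
  classical
  induction s using Finset.induction_on with
  | empty => exact K_of_zero n (fun x => by simp)
  | insert a s ha ih =>
    have := K_add n (hf a (Finset.mem_insert_self a s))
      (ih (fun i hi => hf i (Finset.mem_insert_of_mem hi)))
    simpa [Finset.sum_insert ha] using this

end deg

section ring
variable {M : Type*} [AddCommMonoid M] {R : Type*} [CommRing R]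

lemma K_mul_aux (N : ℕ) : ∀ a b : ℕ, a + b = N → ∀ {f g : M → R}, K (a + 1) f → K (b + 1) g →
    K (a + b + 1) (fun x => f x * g x) := by
  induction N with
  | zero =>
    intro a b hab f g hf hg
    obtain ⟨rfl, rfl⟩ : a = 0 ∧ b = 0 := by omega
    intro h x
    have h1 := hf h x
    have h2 := hg h x
    show f (x + h) * g (x + h) - f x * g x = 0
    simp only at h1 h2
    rw [sub_eq_zero.mp h1, sub_eq_zero.mp h2, sub_self]
  | succ N ih =>
    intro a b hab f g hf hg h
    have e : (fun x => f (x + h) * g (x + h) - f x * g x) =
        fun x => (f (x + h) - f x) * g (x + h) + f x * (g (x + h) - g x) := by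
      funext x; ring
    show K (a + b) (fun x => f (x + h) * g (x + h) - f x * g x)
    rw [e]
    apply K_add
    · rcases a with _ | a
      · apply K_of_zero
        intro x
        have := hf h x
        simp only at this
        rw [this, zero_mul]
      · have := ih a b (by omega) (hf h) (K_shift _ hg h)
        have e2 : a + 1 + b = a + b + 1 := by omega
        rw [e2]; exact this
    · rcases b with _ | b
      · apply K_of_zero
        intro x
        have := hg h x
        simp only at this
        rw [this, mul_zero]
      · exact ih a b (by omega) hf (hg h)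

lemma K_mul {a b : ℕ} {f g : M → R} (hf : K (a + 1) f) (hg : K (b + 1) g) :
    K (a + b + 1) (fun x => f x * g x) := K_mul_aux (a + b) a b rfl hf hg

lemma K_const_mul (n : ℕ) (c : R) {f : M → R} (hf : K n f) : K n (fun x => c * f x) := by
  have := K_hom n (AddMonoidHom.mulLeft c) hf
  simpa using this

lemma K_prod {κ : Type*} (s : Finset κ) (d : κ → ℕ) {f : κ → M → R}
    (hf : ∀ i ∈ s, K (d i + 1) (f i)) : K ((∑ i ∈ s, d i) + 1) (fun x => ∏ i ∈ s, f i x) := by
  classical
  induction s using Finset.induction_on with
  | empty => simpa using K_const (M := M) (1 : R)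
  | insert a s ha ih =>
    have := K_mul (hf a (Finset.mem_insert_self a s))
      (ih (fun i hi => hf i (Finset.mem_insert_of_mem hi)))
    simpa [Finset.sum_insert ha, Finset.prod_insert ha] using this

end ring

section int
variable {M : Type*} [AddCommMonoid M]

lemma K_of_mul (n : ℕ) {m : ℤ} (hm : m ≠ 0) {g : M → ℤ} (h : K n (fun x => m * g x)) : K n g := by
  induction n generalizing g with
  | zero => intro x; exact (mul_eq_zero.mp (h x)).resolve_left hm
  | succ n ih =>
    intro t
    apply ih
    have := h t
    have e : (fun x => m * (g (x + t) - g x)) = fun x => m * g (x + t) - m * g x := by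
      funext x; ring
    rw [e]; exact this

lemma cast_descFactorial_succ (w j : ℕ) :
    ((w.descFactorial (j + 1) : ℕ) : ℤ) = ((w : ℤ) - j) * (w.descFactorial j : ℕ) := by
  rw [Nat.descFactorial_succ]
  rcases le_or_gt j w with h | h
  · push_cast [h]; ring
  · rw [Nat.descFactorial_eq_zero_iff_lt.mpr h]; simp

lemma K_descFactorial {d : ℕ} {w : M → ℕ} (hw : K (d + 1) (fun x => (w x : ℤ))) (j : ℕ) :
    K (j * d + 1) (fun x => (((w x).descFactorial j : ℕ) : ℤ)) := by
  induction j with
  | zero => simpa using K_const (M := M) (1 : ℤ)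
  | succ j ih =>
    have h1 : K (d + 1) (fun x => (w x : ℤ) - j) :=
      K_sub _ hw (K_mono (by omega) (K_const (M := M) (j : ℤ)))
    have := K_mul h1 ih
    have e : (fun x => (((w x).descFactorial (j + 1) : ℕ) : ℤ)) =
        fun x => ((w x : ℤ) - j) * (((w x).descFactorial j : ℕ) : ℤ) := by
      funext x; exact cast_descFactorial_succ _ _
    rw [e]
    have e2 : (j + 1) * d + 1 = d + j * d + 1 := by ring
    rw [e2]; exact this

lemma K_choose {d : ℕ} {w : M → ℕ} (hw : K (d + 1) (fun x => (w x : ℤ))) (j : ℕ) :
    K (j * d + 1) (fun x => (((w x).choose j : ℕ) : ℤ)) := by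
  apply K_of_mul (m := (j.factorial : ℤ)) _ (by exact_mod_cast j.factorial_ne_zero)
  have := K_descFactorial hw j
  have e : (fun x => (j.factorial : ℤ) * (((w x).choose j : ℕ) : ℤ)) =
      fun x => (((w x).descFactorial j : ℕ) : ℤ) := by
    funext x
    rw [Nat.descFactorial_eq_factorial_mul_choose]; push_cast; ring
  rw [e]; exact this

lemma K_biadd {M' A : Type*} [AddCommMonoid M'] [AddCommGroup A] (B : M → M' → A)
    (h1 : ∀ x x' y, B (x + x') y = B x y + B x' y)
    (h2 : ∀ x y y', B x (y + y') = B x y + B x y') :
    K 3 (fun z : M × M' => B z.1 z.2) := by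
  intro h k l z
  simp only [Prod.fst_add, Prod.snd_add, h1, h2]
  abel

end int

end Pool.Agent.Helper34.TF
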