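import Mathlib
import Pool.Agent.Helper34.TF.Deg
import Pool.Agent.Helper34.TF.Bar

/-!
# Mahler coefficients of functions on `ι →₀ ℕ`, via the polynomial ring
-/

set_option linter.unusedSectionVars false

namespace Pool.Agent.Helper34.TF

open MvPolynomial

variable {ι : Type*} [DecidableEq ι] {F : Type*} [CommRing F]

/-- pairing of a polynomial with a function on exponents -/
noncomputable def pr (h : (ι →₀ ℕ) → F) : MvPolynomial ι F →ₗ[F] F :=
  (basisMonomials ι F).constr F h

lemma pr_monomial (h : (ι →₀ ℕ) → F) (x : ι →₀ ℕ) : pr h (monomial x 1) = h x := by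
  unfold pr
  have := (basisMonomials ι F).constr_basis F h x
  simpa using this

lemma pr_ext {L : MvPolynomial ι F →ₗ[F] F} {h : (ι →₀ ℕ) → F}
    (H : ∀ x, L (monomial x 1) = h x) (P : MvPolynomial ι F) : L P = pr h P := by
  have : L = pr h := by
    apply (basisMonomials ι F).ext
    intro x
    rw [coe_basisMonomials, H, pr_monomial]
  rw [this]

lemma pr_X_mul (h : (ι →₀ ℕ) → F) (i : ι) (P : MvPolynomial ι F) :
    pr h (X i * P) = pr (fun x => h (x + Finsupp.single i 1)) P := by
  have := pr_ext (L := (pr h).comp (LinearMap.mulLeft F (X i)))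
    (h := fun x => h (x + Finsupp.single i 1)) (fun x => by
      simp only [LinearMap.comp_apply, LinearMap.mulLeft_apply]
      rw [X, monomial_mul, one_mul, pr_monomial, add_comm]) P
  simpa using this

lemma pr_sub (h k : (ι →₀ ℕ) → F) (P : MvPolynomial ι F) :
    pr (fun x => h x - k x) P = pr h P - pr k P := by
  have := pr_ext (L := pr h - pr k) (h := fun x => h x - k x) (fun x => by
    simp [pr_monomial]) P
  rw [← this]; simp

/-- `X i - 1` for all variables -/
noncomputable def tau : MvPolynomial ι F →ₐ[F] MvPolynomial ι F := aeval (fun i => X i - 1)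
/-- `X i + 1` for all variables -/
noncomputable def tau' : MvPolynomial ι F →ₐ[F] MvPolynomial ι F := aeval (fun i => X i + 1)

lemma tau'_tau (P : MvPolynomial ι F) : tau' (tau P) = P := by
  have : (tau' (ι := ι) (F := F)).comp tau = AlgHom.id F _ := by
    apply MvPolynomial.algHom_ext
    intro i
    simp [tau, tau']
  exact DFunLike.congr_fun this P

lemma tau_tau' (P : MvPolynomial ι F) : tau (tau' P) = P := by
  have : (tau (ι := ι) (F := F)).comp tau' = AlgHom.id F _ := by
    apply MvPolynomial.algHom_ext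
    intro i
    simp [tau, tau']
  exact DFunLike.congr_fun this P

/-- Mahler coefficient -/
noncomputable def coV (h : (ι →₀ ℕ) → F) (γ : ι →₀ ℕ) : F := pr h (tau (monomial γ 1))
/-- function with given Mahler coefficients -/
noncomputable def evV (c : (ι →₀ ℕ) → F) (x : ι →₀ ℕ) : F := pr c (tau' (monomial x 1))

lemma pr_evV (c : (ι →₀ ℕ) → F) (P : MvPolynomial ι F) : pr (evV c) P = pr c (tau' P) := by
  have := pr_ext (L := (pr c).comp (tau' (ι := ι) (F := F)).toLinearMap) (h := evV c)
    (fun x => by simp [evV]) P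
  rw [← this]; simp

lemma coV_evV (c : (ι →₀ ℕ) → F) (γ : ι →₀ ℕ) : coV (evV c) γ = c γ := by
  rw [coV, pr_evV, tau'_tau, pr_monomial]

lemma evV_coV (h : (ι →₀ ℕ) → F) (x : ι →₀ ℕ) : evV (coV h) x = h x := by
  have := pr_ext (L := (pr h).comp (tau (ι := ι) (F := F)).toLinearMap) (h := coV h)
    (fun x => by simp [coV]) (tau' (monomial x 1))
  rw [evV, ← this]
  simp [tau_tau', pr_monomial]

lemma coV_zero (h : (ι →₀ ℕ) → F) : coV h 0 = h 0 := by
  rw [coV]
  have : (monomial (0 : ι →₀ ℕ) (1 : F)) = 1 := rfl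
  rw [this, map_one, ← this, pr_monomial]

lemma monomial_add_single (γ : ι →₀ ℕ) (i : ι) (n : ℕ) :
    (monomial (γ + Finsupp.single i n) (1 : F)) = X i ^ n * monomial γ 1 := by
  rw [MvPolynomial.X_pow_eq_monomial, monomial_mul, one_mul, add_comm]

lemma coV_add_single (h : (ι →₀ ℕ) → F) (γ : ι →₀ ℕ) (i : ι) :
    coV h (γ + Finsupp.single i 1) = coV (fun x => h (x + Finsupp.single i 1) - h x) γ := by
  rw [coV, monomial_add_single, pow_one, map_mul, coV, pr_sub, ← pr_X_mul]
  have : tau (X i : MvPolynomial ι F) = X i - 1 := by simp [tau]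
  rw [this, sub_mul, map_sub, one_mul]

lemma coV_sub (h k : (ι →₀ ℕ) → F) (γ : ι →₀ ℕ) :
    coV (fun x => h x - k x) γ = coV h γ - coV k γ := pr_sub _ _ _

/-- the Mahler coefficient is a finite linear combination of values -/
lemma coV_repr (γ : ι →₀ ℕ) : ∃ (S : Finset (ι →₀ ℕ)) (a : (ι →₀ ℕ) → F),
    ∀ h : (ι →₀ ℕ) → F, coV h γ = ∑ x ∈ S, a x * h x := by
  refine ⟨((basisMonomials ι F).repr (tau (monomial γ 1))).support,
    (basisMonomials ι F).repr (tau (monomial γ 1)), fun h => ?_⟩
  rw [coV, pr, Module.Basis.constr_apply, Finsupp.sum]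
  simp [smul_eq_mul]

lemma coV_of_zero {h : (ι →₀ ℕ) → F} (hh : ∀ x, h x = 0) (γ : ι →₀ ℕ) : coV h γ = 0 := by
  obtain ⟨S, a, H⟩ := coV_repr (F := F) γ
  rw [H]; simp [hh]

lemma exists_single (γ : ι →₀ ℕ) (hγ : γ ≠ 0) : ∃ i γ', γ = γ' + Finsupp.single i 1 := by
  obtain ⟨i, hi⟩ := Finsupp.ne_iff.mp hγ
  refine ⟨i, γ - Finsupp.single i 1, ?_⟩
  have : Finsupp.single i 1 ≤ γ := by
    rw [Finsupp.single_le_iff]
    simp at hi; omega
  rw [tsub_add_cancel_of_le this]

lemma degree_add_single (γ : ι →₀ ℕ) (i : ι) :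
    (γ + Finsupp.single i 1).degree = γ.degree + 1 := by
  rw [map_add]; simp

lemma finsupp_induction {p : (ι →₀ ℕ) → Prop} (h0 : p 0)
    (h1 : ∀ γ i, p γ → p (γ + Finsupp.single i 1)) (γ : ι →₀ ℕ) : p γ := by
  induction hn : γ.degree generalizing γ with
  | zero =>
    rw [Finsupp.degree_eq_zero_iff] at hn
    rw [hn]; exact h0
  | succ n ih =>
    have hγ : γ ≠ 0 := by
      rintro rfl; simp at hn
    obtain ⟨i, γ', rfl⟩ := exists_single γ hγ
    apply h1
    apply ih
    rw [degree_add_single] at hn; omega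

lemma coV_const (c : F) (γ : ι →₀ ℕ) : coV (fun _ => c) γ = if γ = 0 then c else 0 := by
  rcases eq_or_ne γ 0 with rfl | h
  · rw [coV_zero, if_pos rfl]
  · obtain ⟨i, γ', rfl⟩ := exists_single γ h
    rw [if_neg h, coV_add_single]
    exact coV_of_zero (fun x => by simp) _

lemma K_coV_eq_zero {n : ℕ} {h : (ι →₀ ℕ) → F} (hK : K n h) {γ : ι →₀ ℕ} (hγ : n ≤ γ.degree) :
    coV h γ = 0 := by
  induction n generalizing h γ with
  | zero => exact coV_of_zero hK _
  | succ n ih =>
    have hγ0 : γ ≠ 0 := by rintro rfl; simp at hγ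
    obtain ⟨i, γ', rfl⟩ := exists_single γ hγ0
    rw [coV_add_single]
    apply ih (hK _)
    rw [degree_add_single] at hγ; omega

/-- two-variable version: taking a coefficient in the first variable lowers the degree -/
lemma K_coV_left {M : Type*} [AddCommMonoid M] {n : ℕ} {G : (ι →₀ ℕ) × M → F} (hK : K n G)
    (γ : ι →₀ ℕ) : K (n - γ.degree) (fun y => coV (fun x => G (x, y)) γ) := by
  induction γ using finsupp_induction generalizing n G with
  | h0 =>
    have e : (fun y => coV (fun x => G (x, y)) (0 : ι →₀ ℕ)) = fun y => G (AddMonoidHom.inr _ _ y) := by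
      funext y; rw [coV_zero]; rfl
    rw [e]
    simpa using K_comp n (AddMonoidHom.inr (ι →₀ ℕ) M) hK
  | h1 γ i ih =>
    have e : (fun y => coV (fun x => G (x, y)) (γ + Finsupp.single i 1)) =
        fun y => coV (fun x => (fun z : (ι →₀ ℕ) × M =>
          G (z + (Finsupp.single i 1, 0)) - G z) (x, y)) γ := by
      funext y; rw [coV_add_single]; simp
    rw [e]
    rcases n with _ | n
    · apply K_of_zero
      intro y
      apply coV_of_zero
      intro x
      have h1 := hK ((x, y) + (Finsupp.single i 1, 0))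
      have h2 := hK (x, y)
      simp only [h1, h2, sub_zero]
    · have h1 := ih (hK (Finsupp.single i 1, 0))
      have e2 : n + 1 - (γ + Finsupp.single i 1).degree = n - γ.degree := by
        rw [degree_add_single]; omega
      rw [e2]; exact h1

lemma coV_shift_comm (h : (ι →₀ ℕ) → F) (u : ι →₀ ℕ) (γ : ι →₀ ℕ) (i : ι) :
    coV (fun x => h (x + u + Finsupp.single i 1) - h (x + u)) γ =
      coV (fun x => h (x + u)) (γ + Finsupp.single i 1) := by
  rw [coV_add_single]
  congr 1
  funext x
  rw [add_right_comm]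

/-- double coefficient of `g (x + y)` -/
lemma coV_coV_add (g : (ι →₀ ℕ) → F) (γ' γ'' : ι →₀ ℕ) :
    coV (fun y => coV (fun x => g (x + y)) γ') γ'' = coV g (γ' + γ'') := by
  induction γ'' using finsupp_induction generalizing g with
  | h0 => rw [coV_zero]; simp
  | h1 γ i ih =>
    rw [coV_add_single, ← add_assoc, coV_add_single, ← ih]
    congr 1
    funext y
    rw [← coV_sub]
    congr 1
    funext x
    rw [add_assoc]

/-- the Newton expansion with coefficient functions, evaluated at a vector `z` -/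
lemma K_coV_shift {n : ℕ} {g : (ι →₀ ℕ) → F} (hK : K n g) (γ : ι →₀ ℕ) :
    K (n - γ.degree) (fun u => coV (fun x => g (x + u)) γ) := by
  have h : K n (fun z : (ι →₀ ℕ) × (ι →₀ ℕ) => g (z.1 + z.2)) := by
    have := K_comp n ((AddMonoidHom.fst (ι →₀ ℕ) (ι →₀ ℕ)) + AddMonoidHom.snd _ _) hK
    simpa using this
  exact K_coV_left h γ

end Pool.Agent.Helper34.TF
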