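import Mathlib
import Pool.Agent.Helper34.TF.Mahler

/-!
# The group law `x + y + p w(x,y)` is additive up to lower Mahler degree
-/

set_option linter.unusedSectionVars false

namespace Pool.Agent.Helper34.TF

open MvPolynomial

variable {ι : Type*} [DecidableEq ι] [Fintype ι] {F : Type*} [CommRing F]

lemma pr_X_pow_mul (h : (ι →₀ ℕ) → F) (i : ι) (n : ℕ) (P : MvPolynomial ι F) :
    pr h (X i ^ n * P) = pr (fun x => h (x + Finsupp.single i n)) P := by
  have := pr_ext (L := (pr h).comp (LinearMap.mulLeft F (X i ^ n)))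
    (h := fun x => h (x + Finsupp.single i n)) (fun x => by
      simp only [LinearMap.comp_apply, LinearMap.mulLeft_apply]
      rw [X_pow_eq_monomial, monomial_mul, one_mul, pr_monomial, add_comm]) P
  simpa using this

lemma coV_periodic (p l : ℕ) [Fact p.Prime] [CharP F p] (h : (ι →₀ ℕ) → F) (i : ι)
    (hper : ∀ x, h (x + Finsupp.single i (p ^ l)) = h x) (γ : ι →₀ ℕ) (hγ : p ^ l ≤ γ i) :
    coV h γ = 0 := by
  have hle : Finsupp.single i (p ^ l) ≤ γ := by rwa [Finsupp.single_le_iff]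
  obtain ⟨γ', rfl⟩ : ∃ γ', γ = γ' + Finsupp.single i (p ^ l) :=
    ⟨γ - Finsupp.single i (p ^ l), (tsub_add_cancel_of_le hle).symm⟩
  rw [coV, monomial_add_single, map_mul, map_pow]
  have : tau (X i : MvPolynomial ι F) = X i - 1 := by simp [tau]
  rw [this, sub_pow_char_pow, one_pow, sub_mul, one_mul, map_sub, pr_X_pow_mul]
  simp [hper]

/-- substitution `X i ↦ X i ^ p` -/
noncomputable def psi (p : ℕ) : MvPolynomial ι F →ₐ[F] MvPolynomial ι F :=
  aeval (fun i => X i ^ p)

lemma psi_monomial (p : ℕ) (x : ι →₀ ℕ) :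
    psi p (monomial x (1 : F)) = monomial (p • x) 1 := by
  induction x using finsupp_induction with
  | h0 => simp [psi]
  | h1 γ i ih =>
    have h1 := monomial_add_single (F := F) γ i 1
    rw [h1, map_mul, ih, smul_add, Finsupp.smul_single, smul_eq_mul, mul_one,
      monomial_add_single, pow_one]
    simp [psi]

lemma pr_psi (p : ℕ) (c : (ι →₀ ℕ) → F) (P : MvPolynomial ι F) :
    pr c (psi p P) = pr (fun κ => c (p • κ)) P := by
  have := pr_ext (L := (pr c).comp (psi p (ι := ι) (F := F)).toLinearMap)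
    (h := fun κ => c (p • κ)) (fun x => by simp [psi_monomial, pr_monomial]) P
  rw [← this]; simp

lemma tau'_psi (p : ℕ) [Fact p.Prime] [CharP F p] (P : MvPolynomial ι F) :
    tau' (psi p P) = psi p (tau' P) := by
  have : (tau' (ι := ι) (F := F)).comp (psi p) = (psi p).comp tau' := by
    apply MvPolynomial.algHom_ext
    intro i
    have := add_pow_char (R := MvPolynomial ι F) (X i) 1 (p := p)
    simp [tau', psi, this]
  exact DFunLike.congr_fun this P

/-- Newton expansion at `u` of `g (p w + u)` in characteristic `p` -/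
lemma newton_p (p : ℕ) [Fact p.Prime] [CharP F p] (g : (ι →₀ ℕ) → F) (u w : ι →₀ ℕ) :
    g (p • w + u) = evV (fun κ => coV (fun x => g (x + u)) (p • κ)) w := by
  have h1 : evV (coV (fun x => g (x + u))) (p • w) = g (p • w + u) :=
    evV_coV (fun x => g (x + u)) (p • w)
  rw [← h1, evV, evV, ← psi_monomial, tau'_psi, pr_psi]

/-- multi-binomial -/
def ch (x κ : ι →₀ ℕ) : ℤ := ∏ i, ((x i).choose (κ i) : ℤ)

lemma ch_zero_right (x : ι →₀ ℕ) : ch x 0 = 1 := by simp [ch]

lemma ch_zero_left (κ : ι →₀ ℕ) : ch 0 κ = if κ = 0 then 1 else 0 := by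
  unfold ch
  split_ifs with h
  · subst h; simp
  · obtain ⟨i, hi⟩ := Finsupp.ne_iff.mp h
    apply Finset.prod_eq_zero (Finset.mem_univ i)
    simp at hi
    obtain ⟨k, hk⟩ := Nat.exists_eq_succ_of_ne_zero hi
    simp [hk]

lemma ch_add_single (x κ : ι →₀ ℕ) (i : ι) :
    ch (x + Finsupp.single i 1) (κ + Finsupp.single i 1) - ch x (κ + Finsupp.single i 1) =
      ch x κ := by
  unfold ch
  rw [Fintype.prod_eq_mul_prod_compl i, Fintype.prod_eq_mul_prod_compl i,
    Fintype.prod_eq_mul_prod_compl i]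
  have h1 : ∀ j ∈ ({i} : Finset ι)ᶜ, (Finsupp.single i 1 : ι →₀ ℕ) j = 0 := by
    intro j hj
    simp at hj
    exact Finsupp.single_eq_of_ne (by tauto)
  have h2 : ∏ j ∈ ({i} : Finset ι)ᶜ, (((x + Finsupp.single i 1 : ι →₀ ℕ) j).choose
      ((κ + Finsupp.single i 1 : ι →₀ ℕ) j) : ℤ) = ∏ j ∈ ({i} : Finset ι)ᶜ, ((x j).choose (κ j) : ℤ) := by
    apply Finset.prod_congr rfl
    intro j hj
    simp [h1 j hj]
  have h3 : ∏ j ∈ ({i} : Finset ι)ᶜ, ((x j).choose
      ((κ + Finsupp.single i 1 : ι →₀ ℕ) j) : ℤ) = ∏ j ∈ ({i} : Finset ι)ᶜ, ((x j).choose (κ j) : ℤ) := by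
    apply Finset.prod_congr rfl
    intro j hj
    simp [h1 j hj]
  rw [h2, h3]
  simp only [Finsupp.add_apply, Finsupp.single_eq_same, Nat.choose_succ_succ]
  push_cast
  ring

lemma ch_add_single_of_zero (x κ : ι →₀ ℕ) (i : ι) (h : κ i = 0) :
    ch (x + Finsupp.single i 1) κ - ch x κ = 0 := by
  unfold ch
  rw [sub_eq_zero]
  apply Finset.prod_congr rfl
  intro j _
  rcases eq_or_ne j i with rfl | hj
  · simp [h]
  · simp [Finsupp.single_eq_of_ne hj]

lemma coV_ch (κ γ : ι →₀ ℕ) : coV (fun x => (ch x κ : F)) γ = if γ = κ then 1 else 0 := by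
  induction γ using finsupp_induction generalizing κ with
  | h0 =>
    rw [coV_zero, ch_zero_left]
    split_ifs with h1 h2 h2
    · simp
    · exact absurd h1.symm h2
    · exact absurd h2.symm h1
    · simp
  | h1 γ i ih =>
    rw [coV_add_single]
    rcases Nat.eq_zero_or_pos (κ i) with h | h
    · rw [coV_of_zero, if_neg]
      · rintro rfl
        simp at h
      · intro x
        have := ch_add_single_of_zero x κ i h
        have h2 : ((ch (x + Finsupp.single i 1) κ : ℤ) : F) - (ch x κ : F) = ((0 : ℤ) : F) := by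
          rw [← this]; push_cast; ring
        rw [h2]; simp
    · have hle : Finsupp.single i 1 ≤ κ := by rw [Finsupp.single_le_iff]; exact h
      obtain ⟨κ', rfl⟩ : ∃ κ', κ = κ' + Finsupp.single i 1 :=
        ⟨κ - Finsupp.single i 1, (tsub_add_cancel_of_le hle).symm⟩
      have e : (fun x => ((ch (x + Finsupp.single i 1) (κ' + Finsupp.single i 1) : ℤ) : F) -
          (ch x (κ' + Finsupp.single i 1) : F)) = fun x => (ch x κ' : F) := by
        funext x
        rw [← ch_add_single x κ' i]; push_cast; ring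
      rw [e, ih κ']
      simp

lemma evV_delta (κ x : ι →₀ ℕ) : evV (fun γ => if γ = κ then (1 : F) else 0) x = (ch x κ : F) := by
  have e : (fun γ => if γ = κ then (1 : F) else 0) = coV (fun x => (ch x κ : F)) := by
    funext γ; rw [coV_ch]
  rw [e, evV_coV]

lemma evV_eq_sum (c : (ι →₀ ℕ) → F) (T : Finset (ι →₀ ℕ)) (hT : ∀ κ, κ ∉ T → c κ = 0)
    (x : ι →₀ ℕ) : evV c x = ∑ κ ∈ T, c κ * (ch x κ : F) := by
  have key : ∀ P : MvPolynomial ι F,
      pr c P = ∑ κ ∈ T, c κ * pr (fun γ => if γ = κ then (1 : F) else 0) P := by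
    intro P
    have := pr_ext (L := ∑ κ ∈ T, c κ • pr (fun γ => if γ = κ then (1 : F) else 0)) (h := c)
      (fun x => by
        simp only [LinearMap.sum_apply, LinearMap.smul_apply, pr_monomial, smul_eq_mul]
        by_cases hx : x ∈ T
        · rw [Finset.sum_eq_single x]
          · simp
          · intro b _ hb; rw [if_neg hb.symm]; simp
          · intro h; exact absurd hx h
        · rw [Finset.sum_eq_zero, hT x hx]
          intro b hb
          rw [if_neg]
          · simp
          · rintro rfl; exact hx hb) P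
    rw [← this]
    simp
  rw [evV, key]
  apply Finset.sum_congr rfl
  intro κ _
  rw [← evV_delta (F := F)]
  rfl

/-- functions whose high Mahler coefficients vanish are polynomial maps -/
lemma K_of_coV (m : ℕ) (g : (ι →₀ ℕ) → F) (hg : ∀ γ : ι →₀ ℕ, m ≤ γ.degree → coV g γ = 0) :
    K m g := by
  induction m generalizing g with
  | zero =>
    intro x
    rw [← evV_coV g x]
    have : coV g = fun _ => 0 := by funext γ; exact hg γ (Nat.zero_le _)
    rw [this, evV_eq_sum _ ∅ (fun _ _ => rfl)]; simp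
  | succ m ih =>
    intro h
    apply ih
    intro γ hγ
    induction h using finsupp_induction generalizing γ with
    | h0 => apply coV_of_zero; intro x; simp
    | h1 h i ihh =>
      have e : (fun x => g (x + (h + Finsupp.single i 1)) - g x) = fun x =>
          ((fun y => g (y + h) - g y) (x + Finsupp.single i 1) - (fun y => g (y + h) - g y) x)
          - (g x - (g (x + Finsupp.single i 1) - g x) - (g (x + h) )) := by
        funext x
        have : x + (h + Finsupp.single i 1) = x + Finsupp.single i 1 + h := by abel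
        simp only [this]; ring
      rw [e, coV_sub, ← coV_add_single (fun y => g (y + h) - g y) γ i, ihh (γ + Finsupp.single i 1)
        (by rw [degree_add_single]; omega)]
      have e2 : (fun x => g x - (g (x + Finsupp.single i 1) - g x) - g (x + h)) =
          fun x => (0 - (g (x + Finsupp.single i 1) - g x)) - (g (x + h) - g x) := by
        funext x; ring
      rw [e2, coV_sub, coV_sub, ihh γ hγ, ← coV_add_single g γ i,
        hg _ (by rw [degree_add_single]; omega), coV_const]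
      split_ifs <;> simp

lemma degree_eq_sum' (κ : ι →₀ ℕ) : κ.degree = ∑ i, κ i := by
  rw [Finsupp.degree_eq_sum]

/-- a finite set containing all multi-indices of degree `< m` -/
noncomputable def boxT (m : ℕ) : Finset (ι →₀ ℕ) :=
  Finset.Iic (Finsupp.equivFunOnFinite.symm (fun _ => m))

lemma mem_boxT {m : ℕ} {κ : ι →₀ ℕ} (h : κ.degree < m) : κ ∈ boxT m := by
  rw [boxT, Finset.mem_Iic, Finsupp.le_def]
  intro i
  simp only [Finsupp.equivFunOnFinite_symm_apply_apply]
  have : κ i ≤ κ.degree := by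
    rw [degree_eq_sum']
    exact Finset.single_le_sum (fun _ _ => Nat.zero_le _) (Finset.mem_univ i)
  omega

lemma K_ch_comp {M : Type*} [AddCommMonoid M] {d : ℕ} (w : M → (ι →₀ ℕ))
    (hw : ∀ i, K (d + 1) (fun z => (w z i : ℤ))) (κ : ι →₀ ℕ) :
    K (κ.degree * d + 1) (fun z => ((ch (w z) κ : ℤ) : F)) := by
  have h1 : K ((∑ i, κ i * d) + 1) (fun z => ∏ i, (((w z i).choose (κ i) : ℕ) : ℤ)) :=
    K_prod Finset.univ (fun i => κ i * d) (fun i _ => K_choose (hw i) (κ i))
  rw [← Finset.sum_mul, ← degree_eq_sum'] at h1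
  have := K_hom _ (Int.castAddHom F) h1
  exact this

lemma K_fst_snd {n : ℕ} {f : (ι →₀ ℕ) → F} (hf : K n f) :
    K n (fun z : (ι →₀ ℕ) × (ι →₀ ℕ) => f (z.1 + z.2)) := by
  have := K_comp n ((AddMonoidHom.fst (ι →₀ ℕ) (ι →₀ ℕ)) + AddMonoidHom.snd _ _) hf
  simpa using this

/-- the group law is additive up to lower degree -/
theorem K_group_law (p : ℕ) [Fact p.Prime] [CharP F p] (hp : 3 ≤ p)
    (w : (ι →₀ ℕ) → (ι →₀ ℕ) → (ι →₀ ℕ))
    (hw1 : ∀ x x' y, w (x + x') y = w x y + w x' y)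
    (hw2 : ∀ x y y', w x (y + y') = w x y + w x y')
    {m : ℕ} {g : (ι →₀ ℕ) → F} (hg : K m g) :
    K (m - 1) (fun z : (ι →₀ ℕ) × (ι →₀ ℕ) =>
      g (p • w z.1 z.2 + (z.1 + z.2)) - g (z.1 + z.2)) := by
  have hwi : ∀ i, K 3 (fun z : (ι →₀ ℕ) × (ι →₀ ℕ) => (w z.1 z.2 i : ℤ)) := by
    intro i
    apply K_biadd (fun x y => (w x y i : ℤ))
    · intro x x' y; rw [hw1]; simp
    · intro x y y'; rw [hw2]; simp
  have hsum : ∀ z : (ι →₀ ℕ) × (ι →₀ ℕ),
      g (p • w z.1 z.2 + (z.1 + z.2)) - g (z.1 + z.2) =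
      ∑ κ ∈ (boxT m).erase 0, coV (fun x => g (x + (z.1 + z.2))) (p • κ) *
        ((ch (w z.1 z.2) κ : ℤ) : F) := by
    intro z
    rw [newton_p p g (z.1 + z.2) (w z.1 z.2), evV_eq_sum _ (insert 0 (boxT m))]
    · have h0 : (coV (fun x => g (x + (z.1 + z.2))) (p • (0 : ι →₀ ℕ)) *
          ((ch (w z.1 z.2) 0 : ℤ) : F)) = g (z.1 + z.2) := by
        rw [smul_zero, coV_zero, ch_zero_right]; simp
      rw [← Finset.insert_erase (Finset.mem_insert_self (0 : ι →₀ ℕ) (boxT m)),
        Finset.sum_insert (Finset.notMem_erase _ _), h0, Finset.erase_insert_eq_erase]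
      ring
    · intro κ hκ
      have hd : m ≤ κ.degree := by
        by_contra hc
        exact hκ (Finset.mem_insert_of_mem (mem_boxT (by omega)))
      apply K_coV_eq_zero (K_shift m hg (z.1 + z.2))
      rw [map_nsmul, smul_eq_mul]
      nlinarith
  rw [show (fun z : (ι →₀ ℕ) × (ι →₀ ℕ) =>
      g (p • w z.1 z.2 + (z.1 + z.2)) - g (z.1 + z.2)) = _ from funext hsum]
  apply K_sum
  intro κ hκ
  have hκ0 : κ ≠ 0 := (Finset.mem_erase.mp hκ).1
  have hd : 1 ≤ κ.degree := by
    rw [Nat.one_le_iff_ne_zero]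
    intro h
    exact hκ0 ((Finsupp.degree_eq_zero_iff κ).mp h)
  have h1 : K (m - p * κ.degree) (fun z : (ι →₀ ℕ) × (ι →₀ ℕ) =>
      coV (fun x => g (x + (z.1 + z.2))) (p • κ)) := by
    have h2 := K_coV_shift hg (p • κ)
    rw [map_nsmul, smul_eq_mul] at h2
    exact K_fst_snd h2
  rcases Nat.eq_zero_or_pos (m - p * κ.degree) with h0 | hpos
  · apply K_of_zero
    intro z
    rw [h0] at h1
    have := h1 z
    simp only at this
    rw [this, zero_mul]
  · obtain ⟨a, ha⟩ : ∃ a, m - p * κ.degree = a + 1 := ⟨m - p * κ.degree - 1, by omega⟩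
    rw [ha] at h1
    have h3 := K_ch_comp (F := F) (d := 2) (fun z : (ι →₀ ℕ) × (ι →₀ ℕ) => w z.1 z.2) hwi κ
    refine K_mono ?_ (K_mul h1 h3)
    have : 3 * κ.degree ≤ p * κ.degree := Nat.mul_le_mul_right _ hp
    omega

/-- key comparison: coefficients of `g (x * y)` at the top degree -/
theorem coV_coV_op (p : ℕ) [Fact p.Prime] [CharP F p] (hp : 3 ≤ p)
    (w : (ι →₀ ℕ) → (ι →₀ ℕ) → (ι →₀ ℕ))
    (hw1 : ∀ x x' y, w (x + x') y = w x y + w x' y)
    (hw2 : ∀ x y y', w x (y + y') = w x y + w x y')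
    (g : (ι →₀ ℕ) → F) (n b : ℕ) (hg : ∀ γ : ι →₀ ℕ, n < γ.degree + b → coV g γ = 0)
    (γ' γ'' : ι →₀ ℕ) (h : n ≤ γ'.degree + γ''.degree + b) :
    coV (fun y => coV (fun x => g (p • w x y + (x + y))) γ') γ'' = coV g (γ' + γ'') := by
  have hK : K (n + 1 - b) g := K_of_coV _ g (fun γ hγ => hg γ (by omega))
  have h1 := K_group_law p hp w hw1 hw2 hK
  have h2 := K_coV_left h1 γ'
  have h3 : coV (fun y => coV (fun x => g (p • w x y + (x + y)) - g (x + y)) γ') γ'' = 0 := by
    apply K_coV_eq_zero h2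
    omega
  rw [← coV_coV_add g γ' γ'']
  rw [← sub_eq_zero, ← coV_sub, ← h3]
  congr 1
  funext y
  rw [coV_sub]

end Pool.Agent.Helper34.TF
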