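import Mathlib
import Pool.Agent.Helper34.TF.Top

/-!
# Mahler coefficients of cochains (functions on lists); comparison with the additive group
-/

set_option linter.unusedSectionVars false

namespace Pool.Agent.Helper34.TF

open MvPolynomial

variable {ι : Type*} [DecidableEq ι] [Fintype ι] {F : Type*} [CommRing F]

/-- linearity of a functional on functions -/
structure IsLin {X : Type*} (Φ : (X → F) → F) : Prop where
  add : ∀ f g, Φ (fun x => f x + g x) = Φ f + Φ g
  smul : ∀ (c : F) f, Φ (fun x => c * f x) = c * Φ f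

namespace IsLin
variable {X : Type*} {Φ : (X → F) → F}

lemma zero (h : IsLin Φ) : Φ (fun _ => 0) = 0 := by
  have := h.smul 0 (fun _ => 0)
  simpa using this

lemma sum (h : IsLin Φ) {κ : Type*} (S : Finset κ) (a : κ → F) (H : κ → X → F) :
    Φ (fun x => ∑ k ∈ S, a k * H k x) = ∑ k ∈ S, a k * Φ (H k) := by
  classical
  induction S using Finset.induction_on with
  | empty => simpa using h.zero
  | insert b S hb ih =>
    simp only [Finset.sum_insert hb]
    rw [h.add, h.smul, ih]

lemma sub (h : IsLin Φ) (f g : X → F) : Φ (fun x => f x - g x) = Φ f - Φ g := by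
  have h1 := h.smul (-1) g
  have h2 := h.add f (fun x => -1 * g x)
  rw [h1] at h2
  have e : (fun x => f x + -1 * g x) = fun x => f x - g x := by funext x; ring
  rw [e] at h2
  rw [h2]; ring

/-- commutation of a linear functional with a Mahler coefficient -/
lemma coV_comm (h : IsLin Φ) (H : (ι →₀ ℕ) → X → F) (γ : ι →₀ ℕ) :
    Φ (fun L => coV (fun x => H x L) γ) = coV (fun x => Φ (H x)) γ := by
  obtain ⟨S, a, e⟩ := coV_repr (F := F) γ
  rw [e]
  have : (fun L => coV (fun x => H x L) γ) = fun L => ∑ x ∈ S, a x * H x L := by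
    funext L; rw [e]
  rw [this, h.sum]
end IsLin

lemma isLin_coV (γ : ι →₀ ℕ) : IsLin (fun h : (ι →₀ ℕ) → F => coV h γ) := by
  obtain ⟨S, a, e⟩ := coV_repr (F := F) γ
  constructor
  · intro f g; simp only [e, mul_add, Finset.sum_add_distrib]
  · intro c f; simp only [e, Finset.mul_sum]
    exact Finset.sum_congr rfl (fun x _ => by ring)

lemma bar_smul {V : Type*} (op : V → V → V) (c : F) (f : List V → F) (l : List V) :
    bar op (fun m => c * f m) l = c * bar op f l := by
  induction l generalizing f with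
  | nil => simp
  | cons x l ih =>
    cases l with
    | nil => rfl
    | cons y l => rw [bar_cons, bar_cons, ih]; ring

lemma isLin_bar {V : Type*} (op : V → V → V) (l : List V) :
    IsLin (fun f : List V → F => bar op f l) :=
  ⟨fun f g => bar_add op f g l, fun c f => bar_smul op c f l⟩

/-- Mahler coefficients of a cochain -/
noncomputable def co (f : List (ι →₀ ℕ) → F) : List (ι →₀ ℕ) → F
  | [] => f []
  | γ :: Γ => co (fun L => coV (fun x => f (x :: L)) γ) Γ

@[simp] lemma co_nil (f : List (ι →₀ ℕ) → F) : co f [] = f [] := rfl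
lemma co_cons (f : List (ι →₀ ℕ) → F) (γ : ι →₀ ℕ) (Γ : List (ι →₀ ℕ)) :
    co f (γ :: Γ) = co (fun L => coV (fun x => f (x :: L)) γ) Γ := rfl

lemma isLin_co (Γ : List (ι →₀ ℕ)) : IsLin (fun f : List (ι →₀ ℕ) → F => co f Γ) := by
  induction Γ with
  | nil => exact ⟨fun f g => rfl, fun c f => rfl⟩
  | cons γ Γ ih =>
    constructor
    · intro f g
      simp only [co_cons]
      rw [← ih.add]
      congr 1
      funext L
      exact (isLin_coV γ).add _ _
    · intro c f
      simp only [co_cons]
      rw [← ih.smul]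
      congr 1
      funext L
      exact (isLin_coV γ).smul _ _

/-- `co` in the other order: first the coefficients in the tail -/
lemma co_cons' (f : List (ι →₀ ℕ) → F) (γ : ι →₀ ℕ) (Γ : List (ι →₀ ℕ)) :
    co f (γ :: Γ) = coV (fun x => co (fun L => f (x :: L)) Γ) γ := by
  rw [co_cons]
  exact (isLin_co Γ).coV_comm (fun x L => f (x :: L)) γ

/-- cochain with given coefficients -/
noncomputable def ev (c : List (ι →₀ ℕ) → F) : List (ι →₀ ℕ) → F
  | [] => c []
  | x :: L => ev (fun Γ => evV (fun γ => c (γ :: Γ)) x) L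

@[simp] lemma ev_nil (c : List (ι →₀ ℕ) → F) : ev c [] = c [] := rfl
lemma ev_cons (c : List (ι →₀ ℕ) → F) (x : ι →₀ ℕ) (L : List (ι →₀ ℕ)) :
    ev c (x :: L) = ev (fun Γ => evV (fun γ => c (γ :: Γ)) x) L := rfl

lemma evV_repr (x : ι →₀ ℕ) : ∃ (S : Finset (ι →₀ ℕ)) (a : (ι →₀ ℕ) → F),
    ∀ h : (ι →₀ ℕ) → F, evV h x = ∑ y ∈ S, a y * h y := by
  refine ⟨((basisMonomials ι F).repr (tau' (monomial x 1))).support,
    (basisMonomials ι F).repr (tau' (monomial x 1)), fun h => ?_⟩
  rw [evV, pr, Module.Basis.constr_apply, Finsupp.sum]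
  simp [smul_eq_mul]

lemma isLin_ev (L : List (ι →₀ ℕ)) : IsLin (fun f : List (ι →₀ ℕ) → F => ev f L) := by
  induction L with
  | nil => exact ⟨fun f g => rfl, fun c f => rfl⟩
  | cons x L ih =>
    obtain ⟨S, a, e⟩ := evV_repr (F := F) x
    constructor
    · intro f g
      simp only [ev_cons]
      rw [← ih.add]
      congr 1
      funext M
      simp only [e, mul_add, Finset.sum_add_distrib]
    · intro c f
      simp only [ev_cons]
      rw [← ih.smul]
      congr 1
      funext M
      simp only [e, Finset.mul_sum]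
      exact Finset.sum_congr rfl (fun x _ => by ring)

lemma ev_cons' (c : List (ι →₀ ℕ) → F) (x : ι →₀ ℕ) (L : List (ι →₀ ℕ)) :
    ev c (x :: L) = evV (fun γ => ev (fun Γ => c (γ :: Γ)) L) x := by
  rw [ev_cons]
  obtain ⟨S, a, e⟩ := evV_repr (F := F) x
  rw [e]
  have : (fun Γ => evV (fun γ => c (γ :: Γ)) x) = fun Γ => ∑ y ∈ S, a y * c (y :: Γ) := by
    funext Γ; rw [e]
  rw [this, (isLin_ev L).sum S a (fun y Γ => c (y :: Γ))]

theorem co_ev (c : List (ι →₀ ℕ) → F) (Γ : List (ι →₀ ℕ)) : co (ev c) Γ = c Γ := by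
  induction Γ generalizing c with
  | nil => rfl
  | cons γ Γ ih =>
    rw [co_cons]
    have : (fun L => coV (fun x => ev c (x :: L)) γ) = ev (fun Γ => c (γ :: Γ)) := by
      funext L
      have h1 : (fun x => ev c (x :: L)) = evV (fun γ => ev (fun Γ => c (γ :: Γ)) L) := by
        funext x; exact ev_cons' c x L
      rw [h1, coV_evV]
    rw [this, ih]

/-- total degree of a list of multi-indices -/
noncomputable def wt (Γ : List (ι →₀ ℕ)) : ℕ := (Γ.map Finsupp.degree).sum

@[simp] lemma wt_nil : wt ([] : List (ι →₀ ℕ)) = 0 := rfl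
@[simp] lemma wt_cons (γ : ι →₀ ℕ) (Γ : List (ι →₀ ℕ)) : wt (γ :: Γ) = γ.degree + wt Γ := by
  simp [wt]

lemma wt_eq_degree_sum (Γ : List (ι →₀ ℕ)) : wt Γ = Γ.sum.degree := by
  induction Γ with
  | nil => simp
  | cons γ Γ ih => simp [ih]

/-- restriction of a cochain to a multidegree -/
noncomputable def res (α : ι →₀ ℕ) (c : List (ι →₀ ℕ) → F) : List (ι →₀ ℕ) → F :=
  fun Γ => if Γ.sum = α then c Γ else 0

/-- top coefficients of the bar coboundary -/
theorem co_bar (p : ℕ) [Fact p.Prime] [CharP F p] (hp : 3 ≤ p)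
    (w : (ι →₀ ℕ) → (ι →₀ ℕ) → (ι →₀ ℕ))
    (hw1 : ∀ x x' y, w (x + x') y = w x y + w x' y)
    (hw2 : ∀ x y y', w x (y + y') = w x y + w x y')
    (Γ : List (ι →₀ ℕ)) (f : List (ι →₀ ℕ) → F) (n a : ℕ)
    (hf : ∀ Γ' : List (ι →₀ ℕ), Γ'.length + 1 = Γ.length → n < a + wt Γ' → co f Γ' = 0)
    (hΓ : n ≤ a + wt Γ) :
    co (bar (fun x y => p • w x y + (x + y)) f) Γ = bar (· + ·) (res Γ.sum (co f)) Γ := by
  induction Γ generalizing f a with
  | nil => rfl
  | cons γ Γ ih =>
    rcases Γ with _ | ⟨γ'', Γ⟩
    · -- one slot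
      rw [co_cons, co_nil]
      simp only [bar_one]
      rw [coV_const]
      simp only [res, List.sum_nil, List.sum_cons, add_zero, co_nil]
      by_cases h : γ = 0
      · rw [if_pos h, if_pos h.symm]
      · rw [if_neg h, if_neg (fun h' => h h'.symm)]
    · set op : (ι →₀ ℕ) → (ι →₀ ℕ) → (ι →₀ ℕ) := fun x y => p • w x y + (x + y) with hop
      -- decomposition of the bar operator
      have e1 : co (bar op f) (γ :: γ'' :: Γ) =
          coV (fun x => coV (fun y => co (fun L => f (op x y :: L)) Γ) γ'') γ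
            - co (bar op (fun M => coV (fun x => f (x :: M)) γ)) (γ'' :: Γ) := by
        rw [co_cons', co_cons]
        have h1 : (fun x => co (fun L => bar op f (x :: L)) (γ'' :: Γ)) = fun x =>
            coV (fun y => co (fun L => f (op x y :: L)) Γ) γ''
              - co (fun L => bar op (fun m => f (x :: m)) L) (γ'' :: Γ) := by
          funext x
          rw [co_cons', co_cons', ← coV_sub]
          congr 1
          funext y
          rw [← (isLin_co Γ).sub]
          congr 1
        rw [h1, coV_sub]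
        congr 1
        rw [← (isLin_co (γ'' :: Γ)).coV_comm (fun x L => bar op (fun m => f (x :: m)) L) γ]
        rw [← co_cons]
        congr 1
        funext M
        exact ((isLin_bar op M).coV_comm (fun x m => f (x :: m)) γ).symm
      rw [e1]
      -- first part
      have e2 : coV (fun x => coV (fun y => co (fun L => f (op x y :: L)) Γ) γ'') γ =
          co f ((γ + γ'') :: Γ) := by
        have h1 := coV_coV_op p hp w hw1 hw2 (fun x => co (fun L => f (x :: L)) Γ) n (a + wt Γ)
          (fun γ' hγ' => by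
            rw [← co_cons']
            apply hf (γ' :: Γ) (by simp)
            rw [wt_cons]; omega) γ γ'' (by simp only [wt_cons] at hΓ; omega)
        rw [co_cons', ← h1]
        have h2 := (isLin_coV (F := F) γ).coV_comm
          (fun y x => co (fun L => f ((p • w x y + (x + y)) :: L)) Γ) γ''
        exact h2
      rw [e2]
      -- second part
      have e3 := ih (fun M => coV (fun x => f (x :: M)) γ) (a + γ.degree)
        (fun Γ' hl hn => by
          rw [← co_cons]
          apply hf (γ :: Γ') (by simp at hl ⊢; omega)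
          rw [wt_cons]; omega)
        (by simp only [wt_cons] at hΓ ⊢; omega)
      rw [e3, bar_cons]
      congr 1
      · simp only [res, List.sum_cons, add_assoc, if_true]
      · congr 1
        funext Γ'
        simp only [res, List.sum_cons, add_right_inj]
        rfl

theorem co_del (p : ℕ) [Fact p.Prime] [CharP F p] (hp : 3 ≤ p)
    (w : (ι →₀ ℕ) → (ι →₀ ℕ) → (ι →₀ ℕ))
    (hw1 : ∀ x x' y, w (x + x') y = w x y + w x' y)
    (hw2 : ∀ x y y', w x (y + y') = w x y + w x y')
    (Γ : List (ι →₀ ℕ)) (f : List (ι →₀ ℕ) → F) (n : ℕ)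
    (hf : ∀ Γ' : List (ι →₀ ℕ), Γ'.length + 1 = Γ.length → n < wt Γ' → co f Γ' = 0)
    (hΓ : n ≤ wt Γ) :
    co (del (fun x y => p • w x y + (x + y)) f) Γ = del (· + ·) (res Γ.sum (co f)) Γ := by
  rcases Γ with _ | ⟨γ, Γ⟩
  · rfl
  · have h1 := co_bar p hp w hw1 hw2 (γ :: Γ) f n 0 (by simpa using hf) (by simpa using hΓ)
    rw [del_cons, ← h1]
    rw [co_cons, co_cons]
    have e : (fun L => coV (fun x => del (fun x y => p • w x y + (x + y)) f (x :: L)) γ) = fun L =>
        (if γ = 0 then f L else 0)
          - coV (fun x => bar (fun x y => p • w x y + (x + y)) f (x :: L)) γ := by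
      funext L
      rw [← coV_const (f L) γ, ← coV_sub]
      rfl
    rw [e, (isLin_co Γ).sub]
    congr 1
    simp only [res, List.sum_cons]
    by_cases h : γ = 0
    · simp [h]
    · rw [if_neg (by simpa using fun h' => h h')]
      simp only [h, if_false]
      exact (isLin_co Γ).zero

end Pool.Agent.Helper34.TF
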