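import Mathlib
import Pool.Agent.Helper34.TF.Top

/-!
# The group law `x + y + q w(x,y)` is additive up to lower Mahler degree

Here `q` and `q.choose 2` vanish in the coefficient ring.
-/

set_option linter.unusedSectionVars false

namespace Pool.Agent.Helper34.TF

open MvPolynomial

variable {ι : Type*} [DecidableEq ι] [Fintype ι] {F : Type*} [CommRing F]

lemma exists_sub_one_pow (p l : ℕ) [hp : Fact p.Prime] {R : Type*} [CommRing R] (x : R) :
    ∃ Q : R, (x - 1) ^ p ^ l = x ^ p ^ l - 1 + p * Q := by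
  obtain ⟨r, hr⟩ := exists_add_pow_prime_pow_eq hp.out x (-1) l
  have h1 : ∃ s : R, (-1 : R) ^ p ^ l = -1 + p * s := by
    rcases hp.out.eq_two_or_odd' with h | h
    · subst h
      rcases Nat.eq_zero_or_pos l with h | h
      · subst h; exact ⟨0, by simp⟩
      · refine ⟨1, ?_⟩
        have : Even (2 ^ l) := (Nat.even_pow.mpr ⟨even_two, by omega⟩)
        rw [this.neg_one_pow]
        push_cast
        ring
    · refine ⟨0, ?_⟩
      rw [(h.pow).neg_one_pow]; ring
  obtain ⟨s, hs⟩ := h1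
  refine ⟨s - x * r, ?_⟩
  rw [sub_eq_add_neg, hr, hs]
  ring

/-- periodic functions have bounded degree in each variable, `p` nilpotent -/
lemma coV_periodic2 (p l s : ℕ) [Fact p.Prime] (hs : (p : F) ^ s = 0) (h : (ι →₀ ℕ) → F) (i : ι)
    (hper : ∀ x, h (x + Finsupp.single i (p ^ l)) = h x) (γ : ι →₀ ℕ) (hγ : p ^ l * s ≤ γ i) :
    coV h γ = 0 := by
  have hle : Finsupp.single i (p ^ l * s) ≤ γ := by rwa [Finsupp.single_le_iff]
  obtain ⟨γ', rfl⟩ : ∃ γ', γ = γ' + Finsupp.single i (p ^ l * s) :=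
    ⟨γ - Finsupp.single i (p ^ l * s), (tsub_add_cancel_of_le hle).symm⟩
  rw [coV, monomial_add_single, map_mul, map_pow]
  have h1 : tau (X i : MvPolynomial ι F) = X i - 1 := by simp [tau]
  obtain ⟨Q, hQ⟩ := exists_sub_one_pow p l (X i : MvPolynomial ι F)
  rw [h1, pow_mul, hQ]
  -- the ideal generated by `X i ^ p ^ l - 1` is killed
  have hkill : ∀ P : MvPolynomial ι F, pr h ((X i ^ p ^ l - 1) * P) = 0 := by
    intro P
    rw [sub_mul, one_mul, map_sub, pr_X_pow_mul]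
    simp [hper]
  have hps : ((p : MvPolynomial ι F)) ^ s = 0 := by
    have : ((p : MvPolynomial ι F)) = C (p : F) := by simp
    rw [this, ← map_pow, hs, map_zero]
  obtain ⟨S, hS⟩ : ∃ S : MvPolynomial ι F, (X i ^ p ^ l - 1 + (p : MvPolynomial ι F) * Q) ^ s =
      (X i ^ p ^ l - 1) * S := by
    have h2 := sub_dvd_pow_sub_pow (X i ^ p ^ l - 1 + (p : MvPolynomial ι F) * Q)
      ((p : MvPolynomial ι F) * Q) s
    rw [add_sub_cancel_right, mul_pow (p : MvPolynomial ι F), hps, zero_mul, sub_zero] at h2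
    exact h2
  rw [hS, mul_assoc]
  exact hkill _

section law
variable (q : ℕ)

/-- substitution `X i ↦ (X i + 1) ^ q - 1` -/
noncomputable def psq : MvPolynomial ι F →ₐ[F] MvPolynomial ι F :=
  aeval (fun i => (X i + 1) ^ q - 1)

lemma tau'_q_smul (w : ι →₀ ℕ) :
    tau' (monomial (q • w) (1 : F)) = psq q (tau' (monomial w 1)) := by
  induction w using finsupp_induction with
  | h0 => 
    rw [smul_zero]
    have : (monomial (0 : ι →₀ ℕ) (1 : F)) = 1 := rfl
    rw [this, map_one, map_one]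
  | h1 γ i ih =>
    rw [smul_add, Finsupp.smul_single, smul_eq_mul, mul_one, monomial_add_single,
      monomial_add_single, map_mul, map_mul, ih, map_mul]
    simp [tau', psq]

/-- coefficients of `g (q w + u)` -/
noncomputable def cq (g : (ι →₀ ℕ) → F) (u κ : ι →₀ ℕ) : F :=
  pr (coV (fun x => g (x + u))) (psq q (monomial κ 1))

/-- Newton expansion at `u` of `g (q w + u)` -/
lemma newton_q (g : (ι →₀ ℕ) → F) (u w : ι →₀ ℕ) :
    g (q • w + u) = evV (cq q g u) w := by
  have h1 : evV (coV (fun x => g (x + u))) (q • w) = g (q • w + u) :=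
    evV_coV (fun x => g (x + u)) (q • w)
  rw [← h1, evV, evV, tau'_q_smul]
  have := pr_ext (L := (pr (coV (fun x => g (x + u)))).comp (psq q (ι := ι) (F := F)).toLinearMap)
    (h := cq q g u) (fun x => by simp [cq]) (tau' (monomial w 1))
  rw [← this]
  simp

lemma cq_zero (g : (ι →₀ ℕ) → F) (u : ι →₀ ℕ) : cq q g u 0 = g u := by
  unfold cq
  have : (monomial (0 : ι →₀ ℕ) (1 : F)) = 1 := rfl
  rw [this, map_one, ← this, pr_monomial, coV_zero, zero_add]

/-- the polynomial `(1 + X) ^ q - 1` is divisible by `X ^ 3` -/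
lemma exists_cube (hq1 : (q : F) = 0) (hq2 : ((q.choose 2 : ℕ) : F) = 0) (i : ι) :
    ∃ R : MvPolynomial ι F, (X i + 1) ^ q - 1 = X i ^ 3 * R := by
  refine ⟨∑ m ∈ Finset.range q, X i ^ m * ((q.choose (m + 3) : ℕ) : MvPolynomial ι F), ?_⟩
  have h1 : ((q : ℕ) : MvPolynomial ι F) = 0 := by
    have : ((q : MvPolynomial ι F)) = C (q : F) := by simp
    rw [this, hq1, map_zero]
  have h2 : ((q.choose 2 : ℕ) : MvPolynomial ι F) = 0 := by
    have : (((q.choose 2 : ℕ) : MvPolynomial ι F)) = C ((q.choose 2 : ℕ) : F) := by simp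
    rw [this, hq2, map_zero]
  rw [add_pow]
  simp only [one_pow, mul_one]
  have h3 : ∑ m ∈ Finset.range (q + 3), X i ^ m * ((q.choose m : ℕ) : MvPolynomial ι F) =
      ∑ m ∈ Finset.range (q + 1), X i ^ m * ((q.choose m : ℕ) : MvPolynomial ι F) := by
    symm
    apply Finset.sum_subset
    · intro m hm; simp only [Finset.mem_range] at hm ⊢; omega
    · intro m _ hm
      rw [Finset.mem_range, not_lt] at hm
      rw [Nat.choose_eq_zero_of_lt (by omega)]; simp
  rw [← h3, Finset.sum_range_succ', Finset.sum_range_succ', Finset.sum_range_succ', Finset.mul_sum]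
  simp only [Nat.zero_add, Nat.choose_zero_right, Nat.choose_one_right, pow_zero, Nat.cast_one,
    mul_one, h1, h2, mul_zero, add_zero, add_sub_cancel_right]
  apply Finset.sum_congr rfl
  intro m _
  ring

/-- `psq` of a monomial is divisible by the cube of the monomial -/
lemma exists_psq (hq1 : (q : F) = 0) (hq2 : ((q.choose 2 : ℕ) : F) = 0) (κ : ι →₀ ℕ) :
    ∃ R : MvPolynomial ι F, psq q (monomial κ 1) = monomial (3 • κ) 1 * R := by
  induction κ using finsupp_induction with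
  | h0 =>
    refine ⟨1, ?_⟩
    have : (monomial (0 : ι →₀ ℕ) (1 : F)) = 1 := rfl
    rw [smul_zero, this, map_one, mul_one]
  | h1 γ i ih =>
    obtain ⟨R, hR⟩ := ih
    obtain ⟨R', hR'⟩ := exists_cube q hq1 hq2 i
    refine ⟨R' * R, ?_⟩
    rw [smul_add, Finsupp.smul_single, smul_eq_mul, mul_one, monomial_add_single,
      monomial_add_single, map_mul, hR, pow_one]
    have : psq q (X i : MvPolynomial ι F) = (X i + 1) ^ q - 1 := by simp [psq]
    rw [this, hR']
    ring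

lemma pr_mul_repr (κ : ι →₀ ℕ) (R : MvPolynomial ι F) (h : (ι →₀ ℕ) → F) :
    pr h (monomial κ 1 * R) = ∑ β ∈ R.support, R.coeff β * h (κ + β) := by
  conv_lhs => rw [R.as_sum, Finset.mul_sum, map_sum]
  apply Finset.sum_congr rfl
  intro β _
  rw [monomial_mul, one_mul]
  have : (monomial (κ + β) (R.coeff β) : MvPolynomial ι F) = R.coeff β • monomial (κ + β) 1 := by
    rw [smul_monomial, smul_eq_mul, mul_one]
  rw [this, map_smul, pr_monomial, smul_eq_mul]

lemma K_cq (hq1 : (q : F) = 0) (hq2 : ((q.choose 2 : ℕ) : F) = 0) {m : ℕ} {g : (ι →₀ ℕ) → F}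
    (hg : K m g) (κ : ι →₀ ℕ) : K (m - 3 * κ.degree) (fun u => cq q g u κ) := by
  obtain ⟨R, hR⟩ := exists_psq (F := F) q hq1 hq2 κ
  have h1 : (fun u => cq q g u κ) = fun u =>
      ∑ β ∈ R.support, R.coeff β * coV (fun x => g (x + u)) (3 • κ + β) := by
    funext u
    rw [cq, hR, pr_mul_repr]
  rw [h1]
  apply K_sum
  intro β _
  apply K_const_mul
  refine K_mono ?_ (K_coV_shift hg (3 • κ + β))
  rw [map_add, map_nsmul, smul_eq_mul]
  omega

/-- the group law is additive up to lower degree -/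
theorem K_group_law2 (hq1 : (q : F) = 0) (hq2 : ((q.choose 2 : ℕ) : F) = 0)
    (w : (ι →₀ ℕ) → (ι →₀ ℕ) → (ι →₀ ℕ))
    (hw1 : ∀ x x' y, w (x + x') y = w x y + w x' y)
    (hw2 : ∀ x y y', w x (y + y') = w x y + w x y')
    {m : ℕ} {g : (ι →₀ ℕ) → F} (hg : K m g) :
    K (m - 1) (fun z : (ι →₀ ℕ) × (ι →₀ ℕ) =>
      g (q • w z.1 z.2 + (z.1 + z.2)) - g (z.1 + z.2)) := by
  have hwi : ∀ i, K 3 (fun z : (ι →₀ ℕ) × (ι →₀ ℕ) => (w z.1 z.2 i : ℤ)) := by
    intro i
    apply K_biadd (fun x y => (w x y i : ℤ))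
    · intro x x' y; rw [hw1]; simp
    · intro x y y'; rw [hw2]; simp
  have hsum : ∀ z : (ι →₀ ℕ) × (ι →₀ ℕ),
      g (q • w z.1 z.2 + (z.1 + z.2)) - g (z.1 + z.2) =
      ∑ κ ∈ (boxT m).erase 0, cq q g (z.1 + z.2) κ * ((ch (w z.1 z.2) κ : ℤ) : F) := by
    intro z
    rw [newton_q q g (z.1 + z.2) (w z.1 z.2), evV_eq_sum _ (insert 0 (boxT m))]
    · have h0 : cq q g (z.1 + z.2) 0 * ((ch (w z.1 z.2) 0 : ℤ) : F) = g (z.1 + z.2) := by
        rw [cq_zero, ch_zero_right]; simp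
      rw [← Finset.insert_erase (Finset.mem_insert_self (0 : ι →₀ ℕ) (boxT m)),
        Finset.sum_insert (Finset.notMem_erase _ _), h0, Finset.erase_insert_eq_erase]
      ring
    · intro κ hκ
      have hd : m ≤ κ.degree := by
        by_contra hc
        exact hκ (Finset.mem_insert_of_mem (mem_boxT (by omega)))
      have h1 := K_cq q hq1 hq2 hg κ
      have h2 : m - 3 * κ.degree = 0 := by omega
      rw [h2] at h1
      exact h1 (z.1 + z.2)
  rw [show (fun z : (ι →₀ ℕ) × (ι →₀ ℕ) =>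
      g (q • w z.1 z.2 + (z.1 + z.2)) - g (z.1 + z.2)) = _ from funext hsum]
  apply K_sum
  intro κ hκ
  have hκ0 : κ ≠ 0 := (Finset.mem_erase.mp hκ).1
  have hd : 1 ≤ κ.degree := by
    rw [Nat.one_le_iff_ne_zero]
    intro h
    exact hκ0 ((Finsupp.degree_eq_zero_iff κ).mp h)
  have h1 : K (m - 3 * κ.degree) (fun z : (ι →₀ ℕ) × (ι →₀ ℕ) => cq q g (z.1 + z.2) κ) :=
    K_fst_snd (K_cq q hq1 hq2 hg κ)
  rcases Nat.eq_zero_or_pos (m - 3 * κ.degree) with h0 | hpos
  · apply K_of_zero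
    intro z
    rw [h0] at h1
    have := h1 z
    simp only at this
    rw [this, zero_mul]
  · obtain ⟨a, ha⟩ : ∃ a, m - 3 * κ.degree = a + 1 := ⟨m - 3 * κ.degree - 1, by omega⟩
    rw [ha] at h1
    have h3 := K_ch_comp (F := F) (d := 2) (fun z : (ι →₀ ℕ) × (ι →₀ ℕ) => w z.1 z.2) hwi κ
    refine K_mono ?_ (K_mul h1 h3)
    omega

/-- key comparison: coefficients of `g (x * y)` at the top degree -/
theorem coV_coV_op2 (hq1 : (q : F) = 0) (hq2 : ((q.choose 2 : ℕ) : F) = 0)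
    (w : (ι →₀ ℕ) → (ι →₀ ℕ) → (ι →₀ ℕ))
    (hw1 : ∀ x x' y, w (x + x') y = w x y + w x' y)
    (hw2 : ∀ x y y', w x (y + y') = w x y + w x y')
    (g : (ι →₀ ℕ) → F) (n b : ℕ) (hg : ∀ γ : ι →₀ ℕ, n < γ.degree + b → coV g γ = 0)
    (γ' γ'' : ι →₀ ℕ) (h : n ≤ γ'.degree + γ''.degree + b) :
    coV (fun y => coV (fun x => g (q • w x y + (x + y))) γ') γ'' = coV g (γ' + γ'') := by
  have hK : K (n + 1 - b) g := K_of_coV _ g (fun γ hγ => hg γ (by omega))
  have h1 := K_group_law2 q hq1 hq2 w hw1 hw2 hK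
  have h2 := K_coV_left h1 γ'
  have h3 : coV (fun y => coV (fun x => g (q • w x y + (x + y)) - g (x + y)) γ') γ'' = 0 := by
    apply K_coV_eq_zero h2
    omega
  rw [← coV_coV_add g γ' γ'']
  rw [← sub_eq_zero, ← coV_sub, ← h3]
  congr 1
  funext y
  rw [coV_sub]

end law

end Pool.Agent.Helper34.TF
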