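import Mathlib
import Pool.Agent.Helper34.TF.TopB
import Pool.Agent.Helper34.TF.Coef

/-!
# Comparison of a cochain complex with the additive one, version with `q`
-/

set_option linter.unusedSectionVars false

namespace Pool.Agent.Helper34.TF

open MvPolynomial

variable {ι : Type*} [DecidableEq ι] [Fintype ι] {F : Type*} [CommRing F]

/-- top coefficients of the bar coboundary -/
theorem co_bar2 (q : ℕ) (hq1 : (q : F) = 0) (hq2 : ((q.choose 2 : ℕ) : F) = 0)
    (w : (ι →₀ ℕ) → (ι →₀ ℕ) → (ι →₀ ℕ))
    (hw1 : ∀ x x' y, w (x + x') y = w x y + w x' y)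
    (hw2 : ∀ x y y', w x (y + y') = w x y + w x y')
    (Γ : List (ι →₀ ℕ)) (f : List (ι →₀ ℕ) → F) (n a : ℕ)
    (hf : ∀ Γ' : List (ι →₀ ℕ), Γ'.length + 1 = Γ.length → n < a + wt Γ' → co f Γ' = 0)
    (hΓ : n ≤ a + wt Γ) :
    co (bar (fun x y => q • w x y + (x + y)) f) Γ = bar (· + ·) (res Γ.sum (co f)) Γ := by
  induction Γ generalizing f a with
  | nil => rfl
  | cons γ Γ ih =>
    rcases Γ with _ | ⟨γ'', Γ⟩
    · -- one slot
      rw [co_cons, co_nil]
      simp only [bar_one]
      rw [coV_const]
      simp only [res, List.sum_nil, List.sum_cons, add_zero, co_nil]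
      by_cases h : γ = 0
      · rw [if_pos h, if_pos h.symm]
      · rw [if_neg h, if_neg (fun h' => h h'.symm)]
    · set op : (ι →₀ ℕ) → (ι →₀ ℕ) → (ι →₀ ℕ) := fun x y => q • w x y + (x + y) with hop
      -- decomposition of the bar operator
      have e1 : co (bar op f) (γ :: γ'' :: Γ) =
          coV (fun x => coV (fun y => co (fun L => f (op x y :: L)) Γ) γ'') γ
            - co (bar op (fun M => coV (fun x => f (x :: M)) γ)) (γ'' :: Γ) := by
        rw [co_cons', co_cons]
        have h1 : (fun x => co (fun L => bar op f (x :: L)) (γ'' :: Γ)) = fun x =>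
            coV (fun y => co (fun L => f (op x y :: L)) Γ) γ''
              - co (fun L => bar op (fun m => f (x :: m)) L) (γ'' :: Γ) := by
          funext x
          rw [co_cons', co_cons', ← coV_sub]
          congr 1
          funext y
          rw [← (isLin_co Γ).sub]
          congr 1
        rw [h1, coV_sub]
        congr 1
        rw [← (isLin_co (γ'' :: Γ)).coV_comm (fun x L => bar op (fun m => f (x :: m)) L) γ]
        rw [← co_cons]
        congr 1
        funext M
        exact ((isLin_bar op M).coV_comm (fun x m => f (x :: m)) γ).symm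
      rw [e1]
      -- first part
      have e2 : coV (fun x => coV (fun y => co (fun L => f (op x y :: L)) Γ) γ'') γ =
          co f ((γ + γ'') :: Γ) := by
        have h1 := coV_coV_op2 q hq1 hq2 w hw1 hw2 (fun x => co (fun L => f (x :: L)) Γ) n (a + wt Γ)
          (fun γ' hγ' => by
            rw [← co_cons']
            apply hf (γ' :: Γ) (by simp)
            rw [wt_cons]; omega) γ γ'' (by simp only [wt_cons] at hΓ; omega)
        rw [co_cons', ← h1]
        have h2 := (isLin_coV (F := F) γ).coV_comm
          (fun y x => co (fun L => f ((q • w x y + (x + y)) :: L)) Γ) γ''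
        exact h2
      rw [e2]
      -- second part
      have e3 := ih (fun M => coV (fun x => f (x :: M)) γ) (a + γ.degree)
        (fun Γ' hl hn => by
          rw [← co_cons]
          apply hf (γ :: Γ') (by simp at hl ⊢; omega)
          rw [wt_cons]; omega)
        (by simp only [wt_cons] at hΓ ⊢; omega)
      rw [e3, bar_cons]
      congr 1
      · simp only [res, List.sum_cons, add_assoc, if_true]
      · congr 1
        funext Γ'
        simp only [res, List.sum_cons, add_right_inj]
        rfl

theorem co_del2 (q : ℕ) (hq1 : (q : F) = 0) (hq2 : ((q.choose 2 : ℕ) : F) = 0)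
    (w : (ι →₀ ℕ) → (ι →₀ ℕ) → (ι →₀ ℕ))
    (hw1 : ∀ x x' y, w (x + x') y = w x y + w x' y)
    (hw2 : ∀ x y y', w x (y + y') = w x y + w x y')
    (Γ : List (ι →₀ ℕ)) (f : List (ι →₀ ℕ) → F) (n : ℕ)
    (hf : ∀ Γ' : List (ι →₀ ℕ), Γ'.length + 1 = Γ.length → n < wt Γ' → co f Γ' = 0)
    (hΓ : n ≤ wt Γ) :
    co (del (fun x y => q • w x y + (x + y)) f) Γ = del (· + ·) (res Γ.sum (co f)) Γ := by
  rcases Γ with _ | ⟨γ, Γ⟩
  · rfl
  · have h1 := co_bar2 q hq1 hq2 w hw1 hw2 (γ :: Γ) f n 0 (by simpa using hf) (by simpa using hΓ)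
    rw [del_cons, ← h1]
    rw [co_cons, co_cons]
    have e : (fun L => coV (fun x => del (fun x y => q • w x y + (x + y)) f (x :: L)) γ) = fun L =>
        (if γ = 0 then f L else 0)
          - coV (fun x => bar (fun x y => q • w x y + (x + y)) f (x :: L)) γ := by
      funext L
      rw [← coV_const (f L) γ, ← coV_sub]
      rfl
    rw [e, (isLin_co Γ).sub]
    congr 1
    simp only [res, List.sum_cons]
    by_cases h : γ = 0
    · simp [h]
    · rw [if_neg (by simpa using fun h' => h h')]
      simp only [h, if_false]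
      exact (isLin_co Γ).zero

end Pool.Agent.Helper34.TF
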