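import Mathlib
import Pool.Agent.Helper34.TF.Coef

/-!
# Acyclicity of the additive bar complex in a multidegree with an entry `≥ 2`
-/

set_option linter.unusedSectionVars false

namespace Pool.Agent.Helper34.TF

variable {ι : Type*} [DecidableEq ι] [Fintype ι] {F : Type*} [CommRing F]

/-- successive differences -/
noncomputable def dec : List (ι →₀ ℕ) → List (ι →₀ ℕ)
  | [] => []
  | [_] => []
  | a :: b :: l => (b - a) :: dec (b :: l)

lemma dec_cons (a b : ι →₀ ℕ) (l : List (ι →₀ ℕ)) : dec (a :: b :: l) = (b - a) :: dec (b :: l) := rfl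

lemma dec_pp (a : ι →₀ ℕ) (Γ : List (ι →₀ ℕ)) : dec (a :: pp (· + ·) a Γ) = Γ := by
  induction Γ generalizing a with
  | nil => rfl
  | cons x Γ ih => rw [pp_cons, dec_cons, ih]; simp

lemma pp_dec (a : ι →₀ ℕ) (l : List (ι →₀ ℕ)) (h : (a :: l).IsChain (· ≤ ·)) :
    pp (· + ·) a (dec (a :: l)) = l := by
  induction l generalizing a with
  | nil => rfl
  | cons b l ih =>
    rw [List.isChain_cons_cons] at h
    rw [dec_cons, pp_cons, add_tsub_cancel_of_le h.1, ih b h.2]

lemma isChain_pp (a : ι →₀ ℕ) (Γ : List (ι →₀ ℕ)) :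
    (a :: pp (· + ·) a Γ).IsChain (· ≤ ·) := by
  induction Γ generalizing a with
  | nil => simp
  | cons x Γ ih =>
    rw [pp_cons, List.isChain_cons_cons]
    exact ⟨by simp, ih _⟩

lemma getLast_pp (a : ι →₀ ℕ) (Γ : List (ι →₀ ℕ)) :
    (a :: pp (· + ·) a Γ).getLast? = some (a + Γ.sum) := by
  induction Γ generalizing a with
  | nil => simp
  | cons x Γ ih =>
    rw [pp_cons, List.getLast?_cons_cons, ih, List.sum_cons, add_assoc]

lemma length_dec (a : ι →₀ ℕ) (l : List (ι →₀ ℕ)) : (dec (a :: l)).length = l.length := by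
  induction l generalizing a with
  | nil => rfl
  | cons b l ih => rw [dec_cons, List.length_cons, ih, List.length_cons]

/-- the coboundary of a function on chains, in terms of the bar coboundary -/
lemma dl_head (g : List (ι →₀ ℕ) → F) (α : ι →₀ ℕ) (h0 : ∀ a l, a ≠ 0 → g (a :: l) = 0)
    (hα : ∀ m, m.sum ≠ α → g (0 :: pp (· + ·) 0 m) = 0) (Γ : List (ι →₀ ℕ)) (hΓ : Γ.sum = α)
    (hne : Γ ≠ []) :
    dl g (0 :: pp (· + ·) 0 Γ) = del (· + ·) (fun m => g (0 :: pp (· + ·) 0 m)) Γ := by
  rcases Γ with _ | ⟨x, l⟩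
  · exact absurd rfl hne
  · rw [dl_cons, dl_pp (· + ·) add_assoc, del_cons, pp_cons]
    congr 1
    by_cases hx : x = 0
    · subst hx; simp
    · rw [h0 _ _ (by simpa using hx), hα l]
      intro h
      rw [List.sum_cons] at hΓ
      rw [← h] at hΓ
      exact hx (by simpa using hΓ)

/-- the map adding `e i` to the vectors with zero `i`-th entry -/
noncomputable def phi (i : ι) (β : ι →₀ ℕ) : ι →₀ ℕ :=
  if β i = 0 then β + Finsupp.single i 1 else β

lemma le_phi (i : ι) (β : ι →₀ ℕ) : β ≤ phi i β := by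
  unfold phi; split_ifs <;> simp

lemma phi_mono (i : ι) {β β' : ι →₀ ℕ} (h : β ≤ β') : phi i β ≤ phi i β' := by
  unfold phi
  split_ifs with h1 h2 h2
  · gcongr
  · intro j
    rcases eq_or_ne j i with rfl | hj
    · simp [h1]; omega
    · simp [Finsupp.single_eq_of_ne hj]; exact h j
  · intro j
    have := h j
    rcases eq_or_ne j i with rfl | hj
    · omega
    · simp [Finsupp.single_eq_of_ne hj]; exact h j
  · exact h

lemma phi_eq_self (i : ι) {α : ι →₀ ℕ} (hα : 2 ≤ α i) : phi i α = α := by
  unfold phi; rw [if_neg (by omega)]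

lemma eq_of_phi_eq (i : ι) {α β : ι →₀ ℕ} (hα : 2 ≤ α i) (h : phi i β = α) : β = α := by
  unfold phi at h
  split_ifs at h with h1
  · subst h; simp [h1] at hα
  · exact h

lemma phi_zero_ne (i : ι) : phi i 0 ≠ 0 := by
  intro h
  have := congrArg (fun f : ι →₀ ℕ => f i) h
  simp [phi] at this

/-- the function on chains attached to a cochain -/
noncomputable def hatc (α : ι →₀ ℕ) (c : List (ι →₀ ℕ) → F) (σ : List (ι →₀ ℕ)) : F :=
  if σ.head? = some 0 ∧ σ.getLast? = some α then c (dec σ) else 0

lemma hatc_pp (α : ι →₀ ℕ) (c : List (ι →₀ ℕ) → F) (m : List (ι →₀ ℕ)) :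
    hatc α c (0 :: pp (· + ·) 0 m) = res α c m := by
  unfold hatc res
  rw [getLast_pp, zero_add, dec_pp]
  simp

lemma hatc_head (α : ι →₀ ℕ) (c : List (ι →₀ ℕ) → F) (a : ι →₀ ℕ) (l : List (ι →₀ ℕ)) (ha : a ≠ 0) :
    hatc α c (a :: l) = 0 := by
  unfold hatc
  rw [if_neg]
  rintro ⟨h, -⟩
  simp at h
  exact ha h

theorem acyclic (α : ι →₀ ℕ) (i : ι) (hα : 2 ≤ α i) (c : List (ι →₀ ℕ) → F) (s : ℕ)
    (hc : ∀ Γ : List (ι →₀ ℕ), Γ.length = s + 1 → Γ.sum = α → del (· + ·) (res α c) Γ = 0) :
    ∃ b : List (ι →₀ ℕ) → F, (∀ Γ, Γ.sum ≠ α → b Γ = 0) ∧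
      ∀ Γ : List (ι →₀ ℕ), Γ.length = s → Γ.sum = α → del (· + ·) b Γ = c Γ := by
  have hα0 : α ≠ 0 := by rintro rfl; simp at hα
  set g := prism (phi i) (hatc α c) with hg
  have hghead : ∀ a l, a ≠ 0 → g (a :: l) = 0 := by
    intro a l ha
    apply prism_eq_zero
    intro pre x m hl
    rcases pre with _ | ⟨y, pre⟩
    · simp only [List.nil_append, List.cons.injEq] at hl ⊢
      rw [← hl.1]
      exact hatc_head _ _ _ _ ha
    · simp only [List.cons_append, List.cons.injEq] at hl ⊢
      rw [← hl.1]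
      exact hatc_head _ _ _ _ ha
  have hglast : ∀ m : List (ι →₀ ℕ), m.sum ≠ α → g (0 :: pp (· + ·) 0 m) = 0 := by
    intro m hm
    apply prism_eq_zero
    intro pre x l hl
    unfold hatc
    rw [if_neg]
    rintro ⟨-, h⟩
    have h1 : (pre ++ x :: phi i x :: l.map (phi i)).getLast? =
        ((0 :: pp (· + ·) 0 m).getLast?).map (phi i) := by
      rw [hl]
      rw [List.getLast?_append, List.getLast?_append, List.getLast?_cons_cons]
      rw [← List.map_cons, List.getLast?_map]
      have : (x :: l).getLast? ≠ none := by simp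
      obtain ⟨y, hy⟩ := Option.ne_none_iff_exists'.mp this
      rw [hy]; simp
    rw [h1, getLast_pp, zero_add] at h
    simp only [Option.map_some, Option.some.injEq] at h
    exact hm (eq_of_phi_eq i hα h)
  refine ⟨fun m => - g (0 :: pp (· + ·) 0 m), ?_, ?_⟩
  · intro Γ hΓ
    simp only [hglast Γ hΓ, neg_zero]
  · intro Γ hlen hsum
    have hne : Γ ≠ [] := by
      rintro rfl
      exact hα0 (by simpa using hsum.symm)
    have h1 := dl_head g α hghead hglast Γ hsum hne
    have h2 := prism_identity (phi i) (hatc α c) (0 :: pp (· + ·) 0 Γ)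
    have h3 : hatc α c ((0 :: pp (· + ·) 0 Γ).map (phi i)) = 0 := by
      rw [List.map_cons]
      exact hatc_head _ _ _ _ (phi_zero_ne i)
    have h4 : prism (phi i) (dl (hatc α c)) (0 :: pp (· + ·) 0 Γ) = 0 := by
      apply prism_eq_zero
      intro pre x l hl
      have hch : (pre ++ x :: phi i x :: l.map (phi i)).IsChain (· ≤ ·) := by
        have h5 : (pre ++ x :: l).IsChain (· ≤ ·) := by rw [← hl]; exact isChain_pp 0 Γ
        rw [List.isChain_append] at h5 ⊢
        refine ⟨h5.1, ?_, by simpa using h5.2.2⟩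
        rw [List.isChain_cons_cons]
        refine ⟨le_phi i x, ?_⟩
        rw [← List.map_cons]
        rw [List.isChain_map]
        exact h5.2.1.imp (fun a b hab => phi_mono i hab)
      have hlast : (pre ++ x :: phi i x :: l.map (phi i)).getLast? = some α := by
        have : (pre ++ x :: phi i x :: l.map (phi i)).getLast? =
            ((0 :: pp (· + ·) 0 Γ).getLast?).map (phi i) := by
          rw [hl]
          rw [List.getLast?_append, List.getLast?_append, List.getLast?_cons_cons]
          rw [← List.map_cons, List.getLast?_map]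
          have : (x :: l).getLast? ≠ none := by simp
          obtain ⟨y, hy⟩ := Option.ne_none_iff_exists'.mp this
          rw [hy]; simp
        rw [this, getLast_pp, zero_add, hsum]
        simp only [Option.map_some, phi_eq_self i hα]
      have hlen2 : (pre ++ x :: phi i x :: l.map (phi i)).length = s + 2 := by
        have := congrArg List.length hl
        simp only [List.length_cons, length_pp, List.length_append, List.length_map] at this ⊢
        omega
      obtain ⟨t, ht⟩ : ∃ t, pre ++ x :: phi i x :: l.map (phi i) = 0 :: t := by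
        rcases pre with _ | ⟨y, pre⟩
        · simp only [List.nil_append, List.cons.injEq] at hl ⊢
          rw [← hl.1]; exact ⟨_, rfl, rfl⟩
        · simp only [List.cons_append, List.cons.injEq] at hl ⊢
          rw [← hl.1]; exact ⟨_, rfl, rfl⟩
      rw [ht] at hch hlast hlen2 ⊢
      have h6 := pp_dec 0 t hch
      rw [← h6] at hlast ⊢
      rw [getLast_pp, zero_add, Option.some.injEq] at hlast
      have hlen3 : (dec (0 :: t)).length = s + 1 := by
        rw [length_dec]; simpa using hlen2
      rw [dl_head (hatc α c) α (fun a l ha => hatc_head α c a l ha)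
        (fun m hm => by rw [hatc_pp]; simp [res, hm]) _ hlast (by
          intro h; rw [h] at hlen3; simp at hlen3)]
      have : (fun m => hatc α c (0 :: pp (· + ·) 0 m)) = res α c := by
        funext m; exact hatc_pp α c m
      rw [this]
      exact hc _ hlen3 hlast
    rw [h3, h4, h1, hatc_pp] at h2
    have h7 : del (· + ·) (fun m => - g (0 :: pp (· + ·) 0 m)) Γ =
        - del (· + ·) (fun m => g (0 :: pp (· + ·) 0 m)) Γ := by
      have := del_sub (· + ·) (fun _ => (0 : F)) (fun m => g (0 :: pp (· + ·) 0 m)) Γ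
      have h8 : del (· + ·) (fun _ : List (ι →₀ ℕ) => (0 : F)) Γ = 0 := by
        rcases Γ with _ | ⟨x, l⟩
        · rfl
        · rw [del_cons, bar_zero]; simp
      rw [h8, zero_sub] at this
      rw [← this]
      congr 1
      funext m
      ring
    rw [h7]
    have h9 : res α c Γ = c Γ := by simp [res, hsum]
    rw [h9] at h2
    linear_combination -h2

end Pool.Agent.Helper34.TF
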