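import Mathlib
import Pool.Agent.Helper34.TF.Acyc

/-!
# Descent of the degree, and the top class
-/

set_option linter.unusedSectionVars false

namespace Pool.Agent.Helper34.TF

variable {ι : Type*} [DecidableEq ι] [Fintype ι] {F : Type*} [CommRing F]

lemma co_congr {f g : List (ι →₀ ℕ) → F} (Γ : List (ι →₀ ℕ))
    (h : ∀ m : List (ι →₀ ℕ), m.length = Γ.length → f m = g m) : co f Γ = co g Γ := by
  induction Γ generalizing f g with
  | nil => exact h [] rfl
  | cons γ Γ ih =>
    rw [co_cons, co_cons]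
    apply ih
    intro m hm
    congr 1
    funext x
    exact h (x :: m) (by simp [hm])

lemma exists_two_le {α : ι →₀ ℕ} (h : Fintype.card ι < α.degree) : ∃ i, 2 ≤ α i := by
  by_contra hc
  push Not at hc
  rw [degree_eq_sum'] at h
  have : ∑ i, α i ≤ ∑ _i : ι, 1 := Finset.sum_le_sum (fun i _ => by have := hc i; omega)
  simp at this
  omega

lemma del_of_zero {V : Type*} (op : V → V → V) {f : List V → F} (Γ : List V)
    (h : ∀ m : List V, m.length + 1 = Γ.length → f m = 0) : del op f Γ = 0 := by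
  rw [del_congr op (g := fun _ => 0) Γ h]
  rcases Γ with _ | ⟨x, l⟩
  · rfl
  · rw [del_cons, bar_zero]; simp

section
variable (p : ℕ) [Fact p.Prime] [CharP F p] (hp : 3 ≤ p)
    (w : (ι →₀ ℕ) → (ι →₀ ℕ) → (ι →₀ ℕ))
    (hw1 : ∀ x x' y, w (x + x') y = w x y + w x' y)
    (hw2 : ∀ x y y', w x (y + y') = w x y + w x y')
    (hassoc : ∀ x y z : ι →₀ ℕ, (fun x y => p • w x y + (x + y)) ((fun x y => p • w x y + (x + y)) x y) z =
      (fun x y => p • w x y + (x + y)) x ((fun x y => p • w x y + (x + y)) y z))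

include hp hw1 hw2 hassoc

theorem descent_step (s n : ℕ) (hn : Fintype.card ι < n) (f : List (ι →₀ ℕ) → F)
    (hf : ∀ Γ : List (ι →₀ ℕ), Γ.length = s → n < wt Γ → co f Γ = 0)
    (hD : ∀ Γ : List (ι →₀ ℕ), Γ.length = s + 1 → wt Γ = n →
      co (del (fun x y => p • w x y + (x + y)) f) Γ = 0) :
    ∃ f' : List (ι →₀ ℕ) → F,
      (∀ Γ : List (ι →₀ ℕ), Γ.length = s → n ≤ wt Γ → co f' Γ = 0) ∧
      ∀ Γ, del (fun x y => p • w x y + (x + y)) f' Γ = del (fun x y => p • w x y + (x + y)) f Γ := by
  have key : ∀ α : ι →₀ ℕ, α.degree = n → ∃ b : List (ι →₀ ℕ) → F, (∀ Γ, Γ.sum ≠ α → b Γ = 0) ∧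
      ∀ Γ : List (ι →₀ ℕ), Γ.length = s → Γ.sum = α → del (· + ·) b Γ = co f Γ := by
    intro α hα
    obtain ⟨i, hi⟩ := exists_two_le (α := α) (by omega)
    apply acyclic α i hi (co f) s
    intro Γ hlen hsum
    rw [← hsum, ← co_del p hp w hw1 hw2 Γ f n (fun Γ' hl hw => hf Γ' (by omega) hw)
      (by rw [wt_eq_degree_sum, hsum, hα])]
    exact hD Γ hlen (by rw [wt_eq_degree_sum, hsum, hα])
  choose! bb hb1 hb2 using key
  set b : List (ι →₀ ℕ) → F := fun Γ => if Γ.sum.degree = n then bb Γ.sum Γ else 0 with hbdef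
  refine ⟨fun m => f m - del (fun x y => p • w x y + (x + y)) (ev b) m, ?_, ?_⟩
  · intro Γ hlen hwt
    have h1 := co_del p hp w hw1 hw2 Γ (ev b) n (fun Γ' _ hlt => by
      rw [co_ev, hbdef]
      simp only
      rw [if_neg]
      rw [← wt_eq_degree_sum]; omega) hwt
    rw [(isLin_co Γ).sub f, h1]
    have h2 : res Γ.sum (co (ev b)) = res Γ.sum b := by
      funext Γ'; simp only [res, co_ev]
    rw [h2]
    rcases Nat.lt_or_ge n (wt Γ) with h3 | h3
    · rw [hf Γ hlen h3, del_of_zero]
      · simp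
      · intro m _
        unfold res
        split_ifs with h4
        · rw [hbdef]; simp only
          rw [if_neg]
          rw [h4, ← wt_eq_degree_sum]; omega
        · rfl
    · have h4 : Γ.sum.degree = n := by rw [← wt_eq_degree_sum]; omega
      have h5 : res Γ.sum b = bb Γ.sum := by
        funext Γ'
        unfold res
        by_cases h6 : Γ'.sum = Γ.sum
        · rw [if_pos h6, hbdef]
          simp only
          rw [h6, if_pos h4]
        · rw [if_neg h6, hb1 _ h4 _ h6]
      rw [h5, hb2 _ h4 Γ hlen rfl, sub_self]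
  · intro Γ
    rw [del_sub, del_del _ hassoc, sub_zero]

theorem descent (s : ℕ) (D : List (ι →₀ ℕ) → F)
    (hDtop : ∀ Γ : List (ι →₀ ℕ), Γ.length = s + 1 → Fintype.card ι < wt Γ → co D Γ = 0)
    (j : ℕ) (f : List (ι →₀ ℕ) → F)
    (hf : ∀ Γ : List (ι →₀ ℕ), Γ.length = s → Fintype.card ι + j < wt Γ → co f Γ = 0)
    (hD : ∀ Γ : List (ι →₀ ℕ), Γ.length = s + 1 → del (fun x y => p • w x y + (x + y)) f Γ = D Γ) :
    ∃ f' : List (ι →₀ ℕ) → F,
      (∀ Γ : List (ι →₀ ℕ), Γ.length = s → Fintype.card ι < wt Γ → co f' Γ = 0) ∧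
      ∀ Γ : List (ι →₀ ℕ), Γ.length = s + 1 →
        del (fun x y => p • w x y + (x + y)) f' Γ = D Γ := by
  induction j generalizing f with
  | zero => exact ⟨f, by simpa using hf, hD⟩
  | succ j ih =>
    obtain ⟨f', h1, h2⟩ := descent_step p hp w hw1 hw2 hassoc s (Fintype.card ι + (j + 1))
      (by omega) f hf (fun Γ hlen hwt => by
        rw [co_congr (g := D) Γ (fun m hm => hD m (by omega))]
        exact hDtop Γ hlen (by omega))
    exact ih f' (fun Γ hlen hlt => h1 Γ hlen (by omega)) (fun Γ hlen => by rw [h2, hD Γ hlen])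

/-- the conclusion of the descent -/
theorem shuf_co_eq_zero (s : ℕ) (D : List (ι →₀ ℕ) → F)
    (hDtop : ∀ Γ : List (ι →₀ ℕ), Γ.length = s + 1 → Fintype.card ι < wt Γ → co D Γ = 0)
    (j : ℕ) (f : List (ι →₀ ℕ) → F)
    (hf : ∀ Γ : List (ι →₀ ℕ), Γ.length = s → Fintype.card ι + j < wt Γ → co f Γ = 0)
    (hD : ∀ Γ : List (ι →₀ ℕ), Γ.length = s + 1 → del (fun x y => p • w x y + (x + y)) f Γ = D Γ)
    (T : List (ι →₀ ℕ)) (hT : T.length = s + 1) (hTw : Fintype.card ι ≤ wt T) :
    shuf T (co D) = 0 := by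
  obtain ⟨f', h1, h2⟩ := descent p hp w hw1 hw2 hassoc s D hDtop j f hf hD
  rw [← shuf_del (· + ·) add_comm T (res T.sum (co f'))]
  apply shuf_congr
  intro m hm hsum
  rw [← hsum, ← co_del p hp w hw1 hw2 m f' (Fintype.card ι)
    (fun Γ' hl hlt => h1 Γ' (by omega) hlt)
    (by rw [wt_eq_degree_sum, hsum, ← wt_eq_degree_sum]; exact hTw)]
  exact (co_congr m (fun m' hm' => h2 m' (by omega))).symm

end

/-! ### multi-additive cochains -/

/-- multi-additive -/
def MA (D : List (ι →₀ ℕ) → F) : Prop :=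
  ∀ pre x y l, D (pre ++ (x + y) :: l) = D (pre ++ x :: l) + D (pre ++ y :: l)

lemma MA.tail {D : List (ι →₀ ℕ) → F} (h : MA D) (x : ι →₀ ℕ) : MA (fun L => D (x :: L)) := by
  intro pre y z l
  exact h (x :: pre) y z l

lemma MA.coef {D : List (ι →₀ ℕ) → F} (h : MA D) (γ : ι →₀ ℕ) :
    MA (fun L => coV (fun x => D (x :: L)) γ) := by
  intro pre y z l
  have h1 := (isLin_coV (F := F) γ).add (fun x => D (x :: (pre ++ y :: l)))
    (fun x => D (x :: (pre ++ z :: l)))
  simp only at h1 ⊢
  rw [← h1]
  have h2 : (fun x => D (x :: (pre ++ (y + z) :: l))) = fun x => D (x :: (pre ++ y :: l)) +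
      D (x :: (pre ++ z :: l)) := by
    funext x
    exact h (x :: pre) y z l
  rw [h2]

lemma MA.head {D : List (ι →₀ ℕ) → F} (h : MA D) (x y : ι →₀ ℕ) (L : List (ι →₀ ℕ)) :
    D ((x + y) :: L) = D (x :: L) + D (y :: L) := h [] x y L

lemma coV_additive_single {h : (ι →₀ ℕ) → F} (hh : ∀ x y, h (x + y) = h x + h y) (i : ι) :
    coV h (Finsupp.single i 1) = h (Finsupp.single i 1) := by
  have h0 : h 0 = 0 := by have := hh 0 0; simpa using this
  have e := coV_add_single h 0 i
  rw [zero_add] at e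
  rw [e, coV_zero, zero_add, h0, sub_zero]

lemma K_additive {h : (ι →₀ ℕ) → F} (hh : ∀ x y, h (x + y) = h x + h y) : K 2 h := by
  intro y
  have : (fun x => h (x + y) - h x) = fun _ => h y := by
    funext x; rw [hh]; ring
  rw [this]
  exact K_const _

lemma co_MA_eq_zero {D : List (ι →₀ ℕ) → F} (h : MA D) (Γ : List (ι →₀ ℕ))
    (hΓ : Γ.length < wt Γ) : co D Γ = 0 := by
  induction Γ generalizing D with
  | nil => simp at hΓ
  | cons γ Γ ih =>
    rw [co_cons]
    rcases Nat.lt_or_ge 1 γ.degree with h1 | h1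
    · have : (fun L => coV (fun x => D (x :: L)) γ) = fun _ => 0 := by
        funext L
        exact K_coV_eq_zero (K_additive (fun x y => h.head x y L)) (by omega)
      rw [this]
      exact (isLin_co Γ).zero
    · apply ih (h.coef γ)
      simp only [List.length_cons, wt_cons] at hΓ
      omega

lemma co_MA_units {D : List (ι →₀ ℕ) → F} (h : MA D) (T : List (ι →₀ ℕ))
    (hT : ∀ γ ∈ T, ∃ i, γ = Finsupp.single i 1) : co D T = D T := by
  induction T generalizing D with
  | nil => rfl
  | cons γ T ih =>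
    obtain ⟨i, rfl⟩ := hT γ List.mem_cons_self
    rw [co_cons]
    have : (fun L => coV (fun x => D (x :: L)) (Finsupp.single i 1)) =
        fun L => D (Finsupp.single i 1 :: L) := by
      funext L
      exact coV_additive_single (fun x y => h.head x y L) i
    rw [this]
    exact ih (h.tail _) (fun γ hγ => hT γ (List.mem_cons_of_mem _ hγ))

/-! ### periodic cochains -/

/-- periodic in all the entries -/
def Per (P : ℕ) (f : List (ι →₀ ℕ) → F) : Prop :=
  ∀ pre x i l, f (pre ++ (x + Finsupp.single i P) :: l) = f (pre ++ x :: l)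

lemma co_Per_eq_zero (p l : ℕ) [Fact p.Prime] [CharP F p] {f : List (ι →₀ ℕ) → F}
    (h : Per (p ^ l) f) (Γ : List (ι →₀ ℕ)) (hΓ : ∃ γ ∈ Γ, ∃ i, p ^ l ≤ γ i) : co f Γ = 0 := by
  induction Γ generalizing f with
  | nil => simp at hΓ
  | cons γ Γ ih =>
    rw [co_cons]
    obtain ⟨γ', hγ', i, hi⟩ := hΓ
    rcases List.mem_cons.mp hγ' with rfl | hγ'
    · have : (fun L => coV (fun x => f (x :: L)) γ') = fun _ => 0 := by
        funext L
        exact coV_periodic p l _ i (fun x => h [] x i L) γ' hi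
      rw [this]
      exact (isLin_co Γ).zero
    · apply ih _ ⟨γ', hγ', i, hi⟩
      intro pre x j L
      have h2 : (fun y => f (y :: (pre ++ (x + Finsupp.single j (p ^ l)) :: L))) =
          fun y => f (y :: (pre ++ x :: L)) := by
        funext y
        exact h (y :: pre) x j L
      simp only
      rw [h2]

lemma co_Per_eq_zero' (p l : ℕ) [Fact p.Prime] [CharP F p] {f : List (ι →₀ ℕ) → F}
    (h : Per (p ^ l) f) (Γ : List (ι →₀ ℕ)) (hΓ : Γ.length * (Fintype.card ι * p ^ l) < wt Γ) :
    co f Γ = 0 := by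
  apply co_Per_eq_zero p l h
  by_contra hc
  push Not at hc
  have h1 : ∀ γ ∈ Γ, γ.degree ≤ Fintype.card ι * p ^ l := by
    intro γ hγ
    rw [degree_eq_sum']
    calc ∑ i, γ i ≤ ∑ _i : ι, p ^ l := Finset.sum_le_sum (fun i _ => (hc γ hγ i).le)
      _ = _ := by simp
  have h2 : wt Γ ≤ Γ.length * (Fintype.card ι * p ^ l) := by
    unfold wt
    have := List.sum_le_card_nsmul (Γ.map Finsupp.degree) (Fintype.card ι * p ^ l) (by
      intro x hx
      obtain ⟨γ, hγ, rfl⟩ := List.mem_map.mp hx
      exact h1 γ hγ)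
    simpa using this
  omega

/-! ### alternating cochains and shuffles -/

section alt
variable {V : Type*}

lemma ins_perm_congr (x : V) {f g : List V → F} (l : List V)
    (h : ∀ m : List V, m.Perm (x :: l) → f m = g m) : ins x f l = ins x g l := by
  induction l generalizing f g with
  | nil => exact h [x] (List.Perm.refl _)
  | cons y l ih =>
    rw [ins_cons, ins_cons, h (x :: y :: l) (List.Perm.refl _), ih]
    intro m hm
    exact h (y :: m) ((hm.cons y).trans (List.Perm.swap x y l))

lemma shuf_perm_congr (T : List V) {f g : List V → F}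
    (h : ∀ m : List V, m.Perm T → f m = g m) : shuf T f = shuf T g := by
  induction T generalizing f g with
  | nil => exact h [] (List.Perm.refl _)
  | cons x T ih =>
    rw [shuf_cons, shuf_cons]
    apply ih
    intro m hm
    apply ins_perm_congr
    intro m' hm'
    exact h m' (hm'.trans (hm.cons x))

lemma ins_zero (x : V) (l : List V) : ins x (fun _ => (0 : F)) l = 0 := by
  have := ins_sub x (fun _ => (0 : F)) (fun _ => 0) l
  simpa using this

lemma ins_mul (x : V) (c : F) (f : List V → F) (l : List V) :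
    ins x (fun m => c * f m) l = c * ins x f l := by
  induction l generalizing f with
  | nil => simp
  | cons a l ih => rw [ins_cons, ins_cons, ih]; ring

lemma shuf_mul (T : List V) (c : F) (g : List V → F) : shuf T (fun m => c * g m) = c * shuf T g := by
  induction T generalizing g with
  | nil => rfl
  | cons x T ih =>
    rw [shuf_cons, shuf_cons, ← ih]
    congr 1
    funext l
    exact ins_mul x c g l

/-- alternating under adjacent transpositions -/
def AltL (E : List V → F) : Prop :=
  ∀ pre a b l, E (pre ++ a :: b :: l) = - E (pre ++ b :: a :: l)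

lemma ins_alt (x : V) {E : List V → F} (hE : AltL E) (l : List V) :
    ins x E l = (l.length + 1) * E (x :: l) := by
  induction l generalizing E with
  | nil => simp
  | cons y l ih =>
    rw [ins_cons, ih (E := fun m => E (y :: m)) (fun pre a b l => hE (y :: pre) a b l)]
    have := hE [] y x l
    simp only [List.nil_append] at this
    rw [this]
    push_cast [List.length_cons]
    ring

lemma shuf_alt (T : List V) {E : List V → F} (hE : AltL E) :
    shuf T E = (T.length.factorial : F) * E T := by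
  induction T generalizing E with
  | nil => simp
  | cons x T ih =>
    have h1 : shuf (x :: T) E = shuf T (fun m => ((T.length : F) + 1) * E (x :: m)) := by
      rw [shuf_cons]
      apply shuf_perm_congr
      intro m hm
      rw [ins_alt x hE, hm.length_eq]
    rw [h1, shuf_mul, ih (E := fun m => E (x :: m)) (fun pre a b l => hE (x :: pre) a b l),
      List.length_cons, Nat.factorial_succ]
    push_cast
    ring

end alt

end Pool.Agent.Helper34.TF
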