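import Mathlib
import Pool.Agent.Helper34.TF.CoefB
import Pool.Agent.Helper34.TF.Desc

/-!
# Descent of the degree, version with `q`
-/

set_option linter.unusedSectionVars false

namespace Pool.Agent.Helper34.TF

variable {ι : Type*} [DecidableEq ι] [Fintype ι] {F : Type*} [CommRing F]

section
variable (q : ℕ) (hq1 : (q : F) = 0) (hq2 : ((q.choose 2 : ℕ) : F) = 0)
    (w : (ι →₀ ℕ) → (ι →₀ ℕ) → (ι →₀ ℕ))
    (hw1 : ∀ x x' y, w (x + x') y = w x y + w x' y)
    (hw2 : ∀ x y y', w x (y + y') = w x y + w x y')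
    (hassoc : ∀ x y z : ι →₀ ℕ, (fun x y => q • w x y + (x + y)) ((fun x y => q • w x y + (x + y)) x y) z =
      (fun x y => q • w x y + (x + y)) x ((fun x y => q • w x y + (x + y)) y z))

include hq1 hq2 hw1 hw2 hassoc

theorem descent_step2 (s n : ℕ) (hn : Fintype.card ι < n) (f : List (ι →₀ ℕ) → F)
    (hf : ∀ Γ : List (ι →₀ ℕ), Γ.length = s → n < wt Γ → co f Γ = 0)
    (hD : ∀ Γ : List (ι →₀ ℕ), Γ.length = s + 1 → wt Γ = n →
      co (del (fun x y => q • w x y + (x + y)) f) Γ = 0) :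
    ∃ f' : List (ι →₀ ℕ) → F,
      (∀ Γ : List (ι →₀ ℕ), Γ.length = s → n ≤ wt Γ → co f' Γ = 0) ∧
      ∀ Γ, del (fun x y => q • w x y + (x + y)) f' Γ = del (fun x y => q • w x y + (x + y)) f Γ := by
  have key : ∀ α : ι →₀ ℕ, α.degree = n → ∃ b : List (ι →₀ ℕ) → F, (∀ Γ, Γ.sum ≠ α → b Γ = 0) ∧
      ∀ Γ : List (ι →₀ ℕ), Γ.length = s → Γ.sum = α → del (· + ·) b Γ = co f Γ := by
    intro α hα
    obtain ⟨i, hi⟩ := exists_two_le (α := α) (by omega)
    apply acyclic α i hi (co f) s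
    intro Γ hlen hsum
    rw [← hsum, ← co_del2 q hq1 hq2 w hw1 hw2 Γ f n (fun Γ' hl hw => hf Γ' (by omega) hw)
      (by rw [wt_eq_degree_sum, hsum, hα])]
    exact hD Γ hlen (by rw [wt_eq_degree_sum, hsum, hα])
  choose! bb hb1 hb2 using key
  set b : List (ι →₀ ℕ) → F := fun Γ => if Γ.sum.degree = n then bb Γ.sum Γ else 0 with hbdef
  refine ⟨fun m => f m - del (fun x y => q • w x y + (x + y)) (ev b) m, ?_, ?_⟩
  · intro Γ hlen hwt
    have h1 := co_del2 q hq1 hq2 w hw1 hw2 Γ (ev b) n (fun Γ' _ hlt => by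
      rw [co_ev, hbdef]
      simp only
      rw [if_neg]
      rw [← wt_eq_degree_sum]; omega) hwt
    rw [(isLin_co Γ).sub f, h1]
    have h2 : res Γ.sum (co (ev b)) = res Γ.sum b := by
      funext Γ'; simp only [res, co_ev]
    rw [h2]
    rcases Nat.lt_or_ge n (wt Γ) with h3 | h3
    · rw [hf Γ hlen h3, del_of_zero]
      · simp
      · intro m _
        unfold res
        split_ifs with h4
        · rw [hbdef]; simp only
          rw [if_neg]
          rw [h4, ← wt_eq_degree_sum]; omega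
        · rfl
    · have h4 : Γ.sum.degree = n := by rw [← wt_eq_degree_sum]; omega
      have h5 : res Γ.sum b = bb Γ.sum := by
        funext Γ'
        unfold res
        by_cases h6 : Γ'.sum = Γ.sum
        · rw [if_pos h6, hbdef]
          simp only
          rw [h6, if_pos h4]
        · rw [if_neg h6, hb1 _ h4 _ h6]
      rw [h5, hb2 _ h4 Γ hlen rfl, sub_self]
  · intro Γ
    rw [del_sub, del_del _ hassoc, sub_zero]

theorem descent2 (s : ℕ) (D : List (ι →₀ ℕ) → F)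
    (hDtop : ∀ Γ : List (ι →₀ ℕ), Γ.length = s + 1 → Fintype.card ι < wt Γ → co D Γ = 0)
    (j : ℕ) (f : List (ι →₀ ℕ) → F)
    (hf : ∀ Γ : List (ι →₀ ℕ), Γ.length = s → Fintype.card ι + j < wt Γ → co f Γ = 0)
    (hD : ∀ Γ : List (ι →₀ ℕ), Γ.length = s + 1 → del (fun x y => q • w x y + (x + y)) f Γ = D Γ) :
    ∃ f' : List (ι →₀ ℕ) → F,
      (∀ Γ : List (ι →₀ ℕ), Γ.length = s → Fintype.card ι < wt Γ → co f' Γ = 0) ∧
      ∀ Γ : List (ι →₀ ℕ), Γ.length = s + 1 →
        del (fun x y => q • w x y + (x + y)) f' Γ = D Γ := by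
  induction j generalizing f with
  | zero => exact ⟨f, by simpa using hf, hD⟩
  | succ j ih =>
    obtain ⟨f', h1, h2⟩ := descent_step2 q hq1 hq2 w hw1 hw2 hassoc s (Fintype.card ι + (j + 1))
      (by omega) f hf (fun Γ hlen hwt => by
        rw [co_congr (g := D) Γ (fun m hm => hD m (by omega))]
        exact hDtop Γ hlen (by omega))
    exact ih f' (fun Γ hlen hlt => h1 Γ hlen (by omega)) (fun Γ hlen => by rw [h2, hD Γ hlen])

/-- the conclusion of the descent -/
theorem shuf_co_eq_zero2 (s : ℕ) (D : List (ι →₀ ℕ) → F)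
    (hDtop : ∀ Γ : List (ι →₀ ℕ), Γ.length = s + 1 → Fintype.card ι < wt Γ → co D Γ = 0)
    (j : ℕ) (f : List (ι →₀ ℕ) → F)
    (hf : ∀ Γ : List (ι →₀ ℕ), Γ.length = s → Fintype.card ι + j < wt Γ → co f Γ = 0)
    (hD : ∀ Γ : List (ι →₀ ℕ), Γ.length = s + 1 → del (fun x y => q • w x y + (x + y)) f Γ = D Γ)
    (T : List (ι →₀ ℕ)) (hT : T.length = s + 1) (hTw : Fintype.card ι ≤ wt T) :
    shuf T (co D) = 0 := by
  obtain ⟨f', h1, h2⟩ := descent2 q hq1 hq2 w hw1 hw2 hassoc s D hDtop j f hf hD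
  rw [← shuf_del (· + ·) add_comm T (res T.sum (co f'))]
  apply shuf_congr
  intro m hm hsum
  rw [← hsum, ← co_del2 q hq1 hq2 w hw1 hw2 m f' (Fintype.card ι)
    (fun Γ' hl hlt => h1 Γ' (by omega) hlt)
    (by rw [wt_eq_degree_sum, hsum, ← wt_eq_degree_sum]; exact hTw)]
  exact (co_congr m (fun m' hm' => h2 m' (by omega))).symm

end

/-! ### periodic cochains -/

lemma co_Per_eq_zero2 (p l s : ℕ) [Fact p.Prime] (hs : (p : F) ^ s = 0) {f : List (ι →₀ ℕ) → F}
    (h : Per (p ^ l) f) (Γ : List (ι →₀ ℕ)) (hΓ : ∃ γ ∈ Γ, ∃ i, p ^ l * s ≤ γ i) : co f Γ = 0 := by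
  induction Γ generalizing f with
  | nil => simp at hΓ
  | cons γ Γ ih =>
    rw [co_cons]
    obtain ⟨γ', hγ', i, hi⟩ := hΓ
    rcases List.mem_cons.mp hγ' with rfl | hγ'
    · have : (fun L => coV (fun x => f (x :: L)) γ') = fun _ => 0 := by
        funext L
        exact coV_periodic2 p l s hs _ i (fun x => h [] x i L) γ' hi
      rw [this]
      exact (isLin_co Γ).zero
    · apply ih _ ⟨γ', hγ', i, hi⟩
      intro pre x j L
      have h2 : (fun y => f (y :: (pre ++ (x + Finsupp.single j (p ^ l)) :: L))) =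
          fun y => f (y :: (pre ++ x :: L)) := by
        funext y
        exact h (y :: pre) x j L
      simp only
      rw [h2]

lemma co_Per_eq_zero2' (p l s : ℕ) [Fact p.Prime] (hs : (p : F) ^ s = 0) {f : List (ι →₀ ℕ) → F}
    (h : Per (p ^ l) f) (Γ : List (ι →₀ ℕ))
    (hΓ : Γ.length * (Fintype.card ι * (p ^ l * s)) < wt Γ) : co f Γ = 0 := by
  apply co_Per_eq_zero2 p l s hs h
  by_contra hc
  push Not at hc
  have h1 : ∀ γ ∈ Γ, γ.degree ≤ Fintype.card ι * (p ^ l * s) := by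
    intro γ hγ
    rw [degree_eq_sum']
    calc ∑ i, γ i ≤ ∑ _i : ι, p ^ l * s := Finset.sum_le_sum (fun i _ => (hc γ hγ i).le)
      _ = _ := by simp
  have h2 : wt Γ ≤ Γ.length * (Fintype.card ι * (p ^ l * s)) := by
    unfold wt
    have := List.sum_le_card_nsmul (Γ.map Finsupp.degree) (Fintype.card ι * (p ^ l * s)) (by
      intro x hx
      obtain ⟨γ, hγ, rfl⟩ := List.mem_map.mp hx
      exact h1 γ hγ)
    simpa using this
  omega

end Pool.Agent.Helper34.TF
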