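import Mathlib
import Pool.Agent.Helper34.TF.Desc
import Pool.Agent.HSF.V

/-!
# Nonvanishing of the top class for matrices (row N of Theorem F)
-/

set_option autoImplicit false
set_option linter.unusedSectionVars false

namespace Pool.Agent.Helper34.TF

section cup
variable {F : Type*} [CommRing F] {V : Type*} (op : V → V → V)

/-- cup product with a function in front -/
def cupf (χ : V → F) (f : List V → F) : List V → F
  | [] => 0
  | x :: l => χ x * f l

lemma del_cupf (χ : V → F) (hχ : ∀ x y, χ (op x y) = χ x + χ y) (f : List V → F) (x y : V)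
    (l : List V) : del op (cupf χ f) (x :: y :: l) = - (χ x * del op f (y :: l)) := by
  rw [del_cons, bar_cons, del_cons]
  have : bar op (fun m => cupf χ f (x :: m)) (y :: l) = χ x * bar op f (y :: l) := bar_smul op _ _ _
  rw [this]
  simp only [cupf, hχ]
  ring

end cup

section ext
variable {k : Type*} [Field k] {V : Type*} [AddCommMonoid V] {r : ℕ}

/-- the functional on the exterior algebra -/
noncomputable def Phi (k : Type*) [Field k] (r : ℕ) : ExteriorAlgebra k (Fin r → k) →ₗ[k] k :=
  ExteriorAlgebra.liftAlternating (fun i => if h : i = r then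
    (Matrix.detRowAlternating (n := Fin r) (R := k)).domDomCongr (finCongr h.symm) else 0)

/-- determinant of a list of vectors -/
noncomputable def EE (χ : V → (Fin r → k)) (L : List V) : k :=
  Phi k r ((L.map (fun x => ExteriorAlgebra.ι k (χ x))).prod)

lemma EE_add (χ : V → (Fin r → k)) (hχ : ∀ x y, χ (x + y) = χ x + χ y) (pre : List V) (x y : V)
    (l : List V) : EE χ (pre ++ (x + y) :: l) = EE χ (pre ++ x :: l) + EE χ (pre ++ y :: l) := by
  simp only [EE, List.map_append, List.map_cons, List.prod_append, List.prod_cons, hχ, map_add,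
    mul_add, add_mul]

lemma EE_alt (χ : V → (Fin r → k)) : AltL (EE χ) := by
  intro pre a b l
  simp only [EE, List.map_append, List.map_cons, List.prod_append, List.prod_cons]
  rw [← map_neg]
  congr 1
  have h := ExteriorAlgebra.ι_add_mul_swap (R := k) (χ a) (χ b)
  have h2 : ExteriorAlgebra.ι k (χ a) * ExteriorAlgebra.ι k (χ b) =
      - (ExteriorAlgebra.ι k (χ b) * ExteriorAlgebra.ι k (χ a)) := eq_neg_of_add_eq_zero_left h
  rw [← mul_assoc (ExteriorAlgebra.ι k (χ a)), h2, ← mul_assoc (ExteriorAlgebra.ι k (χ b)),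
    neg_mul, mul_neg]

lemma EE_ofFn (χ : V → (Fin r → k)) (x : Fin r → V) :
    EE χ (List.ofFn x) = Matrix.det (Matrix.of fun i => χ (x i)) := by
  unfold EE
  have h1 : ((List.ofFn x).map (fun x => ExteriorAlgebra.ι k (χ x))).prod =
      ExteriorAlgebra.ιMulti k r (fun i => χ (x i)) := by
    rw [ExteriorAlgebra.ιMulti_apply, List.map_ofFn]
    rfl
  rw [h1, Phi, ExteriorAlgebra.liftAlternating_apply_ιMulti, dif_pos rfl]
  rfl

end ext

section matrices
variable {N : ℕ}

/-- index set -/
abbrev Ix (N : ℕ) := Fin (N + 1) × Fin (N + 1)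

/-- integer matrix of a vector of natural numbers -/
def toM (x : Ix N →₀ ℕ) : Matrix (Fin (N + 1)) (Fin (N + 1)) ℤ := fun i j => (x (i, j) : ℤ)

lemma toM_apply (x : Ix N →₀ ℕ) (i j : Fin (N + 1)) : toM x i j = (x (i, j) : ℤ) := rfl

lemma toM_inj {x y : Ix N →₀ ℕ} (h : toM x = toM y) : x = y := by
  ext ⟨i, j⟩
  have := congrFun (congrFun h i) j
  rw [toM_apply, toM_apply] at this
  exact_mod_cast this

/-- matrix product -/
noncomputable def mulV (x y : Ix N →₀ ℕ) : Ix N →₀ ℕ :=
  Finsupp.equivFunOnFinite.symm (fun ij => ∑ m, x (ij.1, m) * y (m, ij.2))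

lemma toM_mulV (x y : Ix N →₀ ℕ) : toM (mulV x y) = toM x * toM y := by
  ext i j
  rw [toM_apply, Matrix.mul_apply]
  simp [mulV, toM_apply]

lemma toM_add (x y : Ix N →₀ ℕ) : toM (x + y) = toM x + toM y := by
  ext i j
  simp [toM_apply]

lemma toM_nsmul (n : ℕ) (x : Ix N →₀ ℕ) : toM (n • x) = (n : ℤ) • toM x := by
  ext i j
  simp [toM_apply]

lemma toM_zero : toM (0 : Ix N →₀ ℕ) = 0 := by
  ext i j
  simp [toM_apply]

/-- the bilinear part -/
noncomputable def ww (p κ : ℕ) (x y : Ix N →₀ ℕ) : Ix N →₀ ℕ := p ^ (κ - 1) • mulV x y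

lemma ww_add_left (p κ : ℕ) (x x' y : Ix N →₀ ℕ) : ww p κ (x + x') y = ww p κ x y + ww p κ x' y := by
  apply toM_inj
  simp only [ww, toM_nsmul, toM_mulV, toM_add, add_mul, smul_add]

lemma ww_add_right (p κ : ℕ) (x y y' : Ix N →₀ ℕ) : ww p κ x (y + y') = ww p κ x y + ww p κ x y' := by
  apply toM_inj
  simp only [ww, toM_nsmul, toM_mulV, toM_add, mul_add, smul_add]

lemma toM_op (p κ : ℕ) (hκ : 1 ≤ κ) (x y : Ix N →₀ ℕ) :
    toM (p • ww p κ x y + (x + y)) = toM x + toM y + (p : ℤ) ^ κ • (toM x * toM y) := by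
  simp only [ww, toM_nsmul, toM_mulV, toM_add, smul_smul]
  have : ((p * p ^ (κ - 1) : ℕ) : ℤ) = (p : ℤ) ^ κ := by
    rw [← pow_succ', Nat.sub_add_cancel hκ]
    push_cast
    rfl
  rw [this]
  abel

lemma op_assoc (p κ : ℕ) (hκ : 1 ≤ κ) (x y z : Ix N →₀ ℕ) :
    (fun x y => p • ww p κ x y + (x + y)) ((fun x y => p • ww p κ x y + (x + y)) x y) z =
      (fun x y => p • ww p κ x y + (x + y)) x ((fun x y => p • ww p κ x y + (x + y)) y z) := by
  apply toM_inj
  simp only [toM_op p κ hκ]
  simp only [add_mul, mul_add, smul_mul_assoc, mul_smul_comm, smul_add, mul_assoc]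
  abel

end matrices

section final
variable {p N κ M r : ℕ} [Fact p.Prime] {k : Type*} [Field k] [Algebra (ZMod p) k]

/-- the homomorphism to `k ^ r` -/
noncomputable def chi (k : Type*) [Field k] {N r : ℕ} (e : Fin r → Ix N) (x : Ix N →₀ ℕ) : Fin r → k :=
  fun a => ((HSF.redm (toM x) (e a) : ℤ) : k)

/-- the last entry -/
noncomputable def chi0 (k : Type*) [Field k] {N : ℕ} (x : Ix N →₀ ℕ) : k :=
  (x (Fin.last N, Fin.last N) : k)

lemma chi_add (e : Fin r → Ix N) (x y : Ix N →₀ ℕ) : chi k e (x + y) = chi k e x + chi k e y := by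
  funext a
  simp only [chi, HSF.redm, toM_apply, Pi.add_apply, Finsupp.add_apply]
  split_ifs <;> push_cast <;> ring

lemma chi0_add (x y : Ix N →₀ ℕ) : chi0 k (x + y) = chi0 k x + chi0 k y := by
  simp [chi0]

lemma natCast_p_eq_zero (p : ℕ) (k : Type*) [Field k] [Algebra (ZMod p) k] : (p : k) = 0 := by
  have := map_natCast (algebraMap (ZMod p) k) p
  rw [← this]; simp

lemma chi_p_smul (e : Fin r → Ix N) (x : Ix N →₀ ℕ) : chi k e (p • x) = 0 := by
  funext a
  simp only [chi, HSF.redm, toM_apply, Finsupp.smul_apply, smul_eq_mul, Pi.zero_apply]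
  split_ifs <;> push_cast <;> simp [natCast_p_eq_zero p k]

lemma chi0_p_smul (x : Ix N →₀ ℕ) : chi0 k (p • x) = 0 := by
  simp [chi0, natCast_p_eq_zero p k]

lemma chi_zero (e : Fin r → Ix N) : chi k e (0 : Ix N →₀ ℕ) = 0 := by
  funext a
  simp [chi, HSF.redm, toM_apply]

/-- congruence modulo `p ^ M` -/
def Cg (p M : ℕ) (x y : Ix N →₀ ℕ) : Prop := ∀ i j, (p : ℤ) ^ M ∣ toM x i j - toM y i j

lemma Cg.refl' (x : Ix N →₀ ℕ) : Cg p M x x := by intro i j; simp

lemma Cg.add' {x x' y y' : Ix N →₀ ℕ} (h : Cg p M x x') (h' : Cg p M y y') :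
    Cg p M (x + y) (x' + y') := by
  intro i j
  have : toM (x + y) i j - toM (x' + y') i j = (toM x i j - toM x' i j) + (toM y i j - toM y' i j) := by
    rw [toM_add, toM_add, Matrix.add_apply, Matrix.add_apply]; ring
  rw [this]
  exact dvd_add (h i j) (h' i j)

lemma Cg.op' (hκ : 1 ≤ κ) {x x' y y' : Ix N →₀ ℕ} (h : Cg p M x x') (h' : Cg p M y y') :
    Cg p M (p • ww p κ x y + (x + y)) (p • ww p κ x' y' + (x' + y')) := by
  intro i j
  rw [toM_op p κ hκ, toM_op p κ hκ]
  have e : (toM x + toM y + (p : ℤ) ^ κ • (toM x * toM y)) i j -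
      (toM x' + toM y' + (p : ℤ) ^ κ • (toM x' * toM y')) i j =
      (toM x i j - toM x' i j) + (toM y i j - toM y' i j) +
      (p : ℤ) ^ κ * ∑ m, ((toM x i m - toM x' i m) * toM y m j +
        toM x' i m * (toM y m j - toM y' m j)) := by
    simp only [Matrix.add_apply, Matrix.smul_apply, Matrix.mul_apply, smul_eq_mul]
    have : ∑ m, ((toM x i m - toM x' i m) * toM y m j + toM x' i m * (toM y m j - toM y' m j)) =
        ∑ m, toM x i m * toM y m j - ∑ m, toM x' i m * toM y' m j := by
      rw [← Finset.sum_sub_distrib]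
      apply Finset.sum_congr rfl
      intro m _
      ring
    rw [this]; ring
  rw [e]
  refine dvd_add (dvd_add (h i j) (h' i j)) (Dvd.dvd.mul_left (Finset.dvd_sum fun m _ =>
    dvd_add (Dvd.dvd.mul_right (h i m) _) (Dvd.dvd.mul_left (h' m j) _)) _)

lemma forall₂_pp (hκ : 1 ≤ κ) {m m' : List (Ix N →₀ ℕ)} (h : List.Forall₂ (Cg p M) m m')
    {a a' : Ix N →₀ ℕ} (ha : Cg p M a a') :
    List.Forall₂ (Cg p M) (pp (fun x y => p • ww p κ x y + (x + y)) a m)
      (pp (fun x y => p • ww p κ x y + (x + y)) a' m') := by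
  induction h generalizing a a' with
  | nil => exact List.Forall₂.nil
  | cons h _ ih =>
    rw [pp_cons, pp_cons]
    exact List.Forall₂.cons (Cg.op' hκ ha h) (ih (Cg.op' hκ ha h))

lemma dl_eq_dl {X A : Type*} [AddCommGroup A] (f : List X → A) (l : List X) :
    HSF.dl f l = dl f l := by
  induction l generalizing f with
  | nil => rfl
  | cons a l ih =>
    rw [dl_cons, ← ih]
    rfl

lemma hpp_map (op : (Ix N →₀ ℕ) → (Ix N →₀ ℕ) → (Ix N →₀ ℕ)) (χ : (Ix N →₀ ℕ) → (Fin r → k))
    (hχ : ∀ x y, χ (op x y) = χ x + χ y) (a : Ix N →₀ ℕ) (m : List (Ix N →₀ ℕ)) :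
    (a :: pp op a m).map χ = HSF.pp (· + ·) (χ a) (m.map χ) := by
  induction m generalizing a with
  | nil => rfl
  | cons x m ih =>
    rw [pp_cons, List.map_cons, ih (op a x), hχ]
    rfl

end final

theorem nv_int {p N κ M r : ℕ} [Fact p.Prime] {k : Type*} [Field k] [Algebra (ZMod p) k]
    (hr1 : 1 ≤ r) (hrp : r < p) (hp : 3 ≤ p) (hκ : 1 ≤ κ)
    (e : Fin r → Fin (N + 1) × Fin (N + 1)) (he : Function.Injective e)
    (he' : ∀ ij, (∃ a, e a = ij) ↔ ij ≠ (Fin.last N, Fin.last N))
    (c : List (Matrix (Fin (N + 1)) (Fin (N + 1)) ℤ) → k) (lam : k)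
    (hper : ∀ l l' : List (Matrix (Fin (N + 1)) (Fin (N + 1)) ℤ),
      List.Forall₂ (fun x y => ∀ i j, (p : ℤ) ^ M ∣ x i j - y i j) l l' → c l = c l')
    (hinv : ∀ (a : Matrix (Fin (N + 1)) (Fin (N + 1)) ℤ) l, l.length = r →
      c (l.map fun x => a + x + (p : ℤ) ^ κ • (a * x)) = c l)
    (hd : ∀ l : List (Matrix (Fin (N + 1)) (Fin (N + 1)) ℤ), l.length = r + 1 →
      HSF.dl c l = lam * HSF.vol r (l.map fun x a => ((HSF.redm x (e a) : ℤ) : k))) : lam = 0 := by
  classical
  have : CharP k p := charP_of_injective_algebraMap (algebraMap (ZMod p) k).injective p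
  set op : (Ix N →₀ ℕ) → (Ix N →₀ ℕ) → (Ix N →₀ ℕ) := fun x y => p • ww p κ x y + (x + y) with hop
  have hassoc := op_assoc (N := N) p κ hκ
  have hz1 : ∀ x : Ix N →₀ ℕ, op 0 x = x := by
    intro x
    apply toM_inj
    rw [hop]
    simp only [toM_op p κ hκ, toM_zero]
    simp
  have hz2 : ∀ x : Ix N →₀ ℕ, op x 0 = x := by
    intro x
    apply toM_inj
    rw [hop]
    simp only [toM_op p κ hκ, toM_zero]
    simp
  -- characters
  have hchi : ∀ x y, chi k e (op x y) = chi k e x + chi k e y := by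
    intro x y
    rw [hop]
    simp only [chi_add, chi_p_smul, zero_add]
  have hchi0 : ∀ x y, chi0 k (op x y) = chi0 k x + chi0 k y := by
    intro x y
    rw [hop]
    simp only [chi0_add, chi0_p_smul, zero_add]
  set f : List (Ix N →₀ ℕ) → k := fun m => c ((0 :: pp op 0 m).map toM) with hf
  -- the coboundary of `f`
  have hdf : ∀ m : List (Ix N →₀ ℕ), m.length = r → del op f m = lam * EE (chi k e) m := by
    intro m hm
    rcases m with _ | ⟨x, l⟩
    · simp at hm; omega
    · have h1 := del_of_dl op hassoc 0 hz1 hz2 (fun l => c (l.map toM)) x l (by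
        have h2 := hinv (toM x) ((0 :: pp op 0 l).map toM) (by simp at hm ⊢; omega)
        rw [← h2, List.map_map, List.map_map]
        congr 1
        apply List.map_congr_left
        intro y _
        simp only [Function.comp]
        rw [hop]
        exact toM_op p κ hκ x y)
      have h3 : dl (fun l => c (l.map toM)) (0 :: pp op 0 (x :: l)) =
          HSF.dl c ((0 :: pp op 0 (x :: l)).map toM) := by
        rw [dl_eq_dl]
        have : ∀ (g : List (Matrix (Fin (N + 1)) (Fin (N + 1)) ℤ) → k) (L : List (Ix N →₀ ℕ)),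
            dl (fun l => g (l.map toM)) L = dl g (L.map toM) := by
          intro g L
          induction L generalizing g with
          | nil => rfl
          | cons a L ih =>
            rw [dl_cons, List.map_cons, dl_cons]
            congr 1
            exact ih (fun m => g (toM a :: m))
        exact this c _
      have h4 : del op f (x :: l) = dl (fun l => c (l.map toM)) (0 :: pp op 0 (x :: l)) := h1.symm
      rw [h4, h3, hd _ (by simp at hm ⊢; omega), List.map_map]
      congr 1
      have h5 : ((fun (x : Matrix (Fin (N + 1)) (Fin (N + 1)) ℤ) (a : Fin r) =>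
          ((HSF.redm x (e a) : ℤ) : k)) ∘ toM) = chi k e := rfl
      rw [h5, hpp_map op (chi k e) hchi, chi_zero]
      obtain ⟨v, hv⟩ : ∃ v : Fin r → (Ix N →₀ ℕ), x :: l = List.ofFn v := by
        subst hm
        exact ⟨(x :: l).get, (List.ofFn_get _).symm⟩
      rw [hv, EE_ofFn, List.map_ofFn, HSF.vol_pp]
      rfl
  set F1 : List (Ix N →₀ ℕ) → k := cupf (chi0 k) f with hF1
  set D : List (Ix N →₀ ℕ) → k := cupf (fun x => - (chi0 k x * lam)) (EE (chi k e)) with hD
  have hcard : Fintype.card (Ix N) = r + 1 := by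
    have h1 : Finset.univ.image e = Finset.univ.erase ((Fin.last N, Fin.last N) : Ix N) := by
      ext ij
      simp only [Finset.mem_image, Finset.mem_univ, true_and, Finset.mem_erase, and_true]
      exact he' ij
    have h2 := congrArg Finset.card h1
    rw [Finset.card_image_of_injective _ he, Finset.card_erase_of_mem (Finset.mem_univ _)] at h2
    rw [Finset.card_univ, Finset.card_univ, Fintype.card_fin] at h2
    have h3 : 0 < Fintype.card (Ix N) := Fintype.card_pos
    have h4 : r = Fintype.card (Ix N) - 1 := h2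
    omega
  have hdF : ∀ Γ : List (Ix N →₀ ℕ), Γ.length = r + 1 → del op F1 Γ = D Γ := by
    intro Γ hΓ
    rcases Γ with _ | ⟨x, _ | ⟨y, l⟩⟩
    · simp at hΓ
    · simp at hΓ; omega
    · rw [hF1, del_cupf op (chi0 k) hchi0 f x y l, hdf (y :: l) (by simpa using hΓ)]
      simp only [hD, cupf]
      ring
  have hMA : MA D := by
    intro pre x y l
    rcases pre with _ | ⟨z, pre⟩
    · simp only [List.nil_append, hD, cupf, chi0_add]; ring
    · simp only [List.cons_append, hD, cupf]
      rw [EE_add (chi k e) (chi_add e)]; ring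
  have hper1 : Per (p ^ (M + 1)) F1 := by
    intro pre x i l
    have hcg : ∀ x : Ix N →₀ ℕ, Cg p M (x + Finsupp.single i (p ^ (M + 1))) x := by
      intro x i' j'
      rw [toM_add, Matrix.add_apply, add_sub_cancel_left, toM_apply]
      rw [Finsupp.single_apply]
      split_ifs
      · push_cast
        exact pow_dvd_pow _ (Nat.le_succ M)
      · simp
    have hchi0p : ∀ x : Ix N →₀ ℕ, chi0 k (x + Finsupp.single i (p ^ (M + 1))) = chi0 k x := by
      intro x
      simp only [chi0, Finsupp.add_apply, Finsupp.single_apply]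
      split_ifs
      · push_cast
        rw [natCast_p_eq_zero p k, zero_pow (by omega), add_zero]
      · simp
    rcases pre with _ | ⟨z, pre⟩
    · simp only [List.nil_append, hF1, cupf, hchi0p]
    · simp only [List.cons_append, hF1, cupf]
      congr 1
      simp only [hf]
      apply hper
      rw [List.forall₂_map_left_iff, List.forall₂_map_right_iff]
      refine List.Forall₂.cons (Cg.refl' 0) (forall₂_pp hκ ?_ (Cg.refl' 0))
      refine List.rel_append ?_ ?_
      · exact List.forall₂_same.mpr (fun x _ => Cg.refl' x)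
      · exact List.Forall₂.cons (hcg x) (List.forall₂_same.mpr (fun x _ => Cg.refl' x))
  -- the shuffle
  set T : List (Ix N →₀ ℕ) := Finsupp.single (Fin.last N, Fin.last N) 1 ::
    List.ofFn (fun a => Finsupp.single (e a) 1) with hT
  have hTunit : ∀ γ ∈ T, ∃ i, γ = Finsupp.single i 1 := by
    intro γ hγ
    rw [hT, List.mem_cons] at hγ
    rcases hγ with rfl | hγ
    · exact ⟨_, rfl⟩
    · obtain ⟨a, rfl⟩ := List.mem_ofFn.mp hγ
      exact ⟨_, rfl⟩
  have hTlen : T.length = r + 1 := by simp [hT]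
  have hwT : wt T = r + 1 := by
    have : ∀ L : List (Ix N →₀ ℕ), (∀ γ ∈ L, ∃ i, γ = Finsupp.single i 1) → wt L = L.length := by
      intro L hL
      induction L with
      | nil => rfl
      | cons γ L ih =>
        obtain ⟨i, rfl⟩ := hL γ List.mem_cons_self
        rw [wt_cons, ih (fun γ hγ => hL γ (List.mem_cons_of_mem _ hγ))]
        simp; omega
    rw [this T hTunit, hTlen]
  have h0 := shuf_co_eq_zero p hp (ww p κ) (ww_add_left p κ) (ww_add_right p κ) hassoc r D
    (fun Γ hlen hwt => co_MA_eq_zero hMA Γ (by omega))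
    (r * (Fintype.card (Ix N) * p ^ (M + 1))) F1
    (fun Γ hlen hwt => co_Per_eq_zero' p (M + 1) hper1 Γ (by rw [hlen]; omega))
    hdF T hTlen (by omega)
  have h1 : shuf T (co D) = shuf T D := by
    apply shuf_perm_congr
    intro m hm
    exact co_MA_units hMA m (fun γ hγ => hTunit γ (hm.mem_iff.mp hγ))
  have hchie : ∀ a b, chi k e (Finsupp.single (e b) 1) a = if a = b then 1 else 0 := by
    intro a b
    have hb : e b ≠ (Fin.last N, Fin.last N) := (he' _).mp ⟨b, rfl⟩
    simp only [chi, HSF.redm, toM_apply, Finsupp.single_apply]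
    rw [if_neg hb]
    simp only [he.eq_iff]
    by_cases hab : a = b
    · subst hab; simp
    · rw [if_neg hab, if_neg (fun h => hab h.symm)]
      simp
  have hchi0e : ∀ b, chi0 k (Finsupp.single (e b) 1 : Ix N →₀ ℕ) = 0 := by
    intro b
    have hb : e b ≠ (Fin.last N, Fin.last N) := (he' _).mp ⟨b, rfl⟩
    simp only [chi0, Finsupp.single_apply]
    rw [if_neg hb]; simp
  have hchi0l : chi0 k (Finsupp.single (Fin.last N, Fin.last N) 1 : Ix N →₀ ℕ) = 1 := by
    simp [chi0]
  have h2 : shuf T D = shuf (List.ofFn (fun a => (Finsupp.single (e a) 1 : Ix N →₀ ℕ)))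
      (fun m => - lam * EE (chi k e) m) := by
    rw [hT, shuf_cons]
    apply shuf_perm_congr
    intro m hm
    rcases m with _ | ⟨y, m⟩
    · simp only [ins_nil, hD, cupf, hchi0l]; ring
    · have hy : chi0 k y = 0 := by
        obtain ⟨a, rfl⟩ := List.mem_ofFn.mp (hm.mem_iff.mp List.mem_cons_self)
        exact hchi0e a
      rw [ins_cons]
      have : (fun m => D (y :: m)) = fun _ => 0 := by
        funext m
        simp only [hD, cupf, hy]; ring
      rw [this, ins_zero]
      simp only [hD, cupf, hchi0l]; ring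
  rw [h1, h2, shuf_mul, shuf_alt _ (EE_alt (chi k e)), EE_ofFn] at h0
  have h3 : (Matrix.of fun i => chi k e (Finsupp.single (e i) 1 : Ix N →₀ ℕ)) = 1 := by
    ext i j
    rw [Matrix.of_apply, hchie, Matrix.one_apply]
    simp only [eq_comm]
  rw [h3, Matrix.det_one, mul_one, List.length_ofFn] at h0
  have h4 : (r.factorial : k) ≠ 0 := by
    rw [Ne, CharP.cast_eq_zero_iff k p, (Fact.out : p.Prime).dvd_factorial]
    omega
  rcases mul_eq_zero.mp h0 with h5 | h5
  · exact neg_eq_zero.mp h5
  · exact absurd h5 h4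

end Pool.Agent.Helper34.TF
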