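import Mathlib
import Pool.Agent.Helper34.TF.DescB
import Pool.Agent.Helper34.TF.NV

/-!
# Nonvanishing of the top class for matrices, coefficients in a ring in which `p` is nilpotent
-/

set_option autoImplicit false
set_option linter.unusedSectionVars false

namespace Pool.Agent.Helper34.TF

section ext
variable {k : Type*} [CommRing k] {V : Type*} [AddCommMonoid V] {r : ℕ}

/-- the functional on the exterior algebra -/
noncomputable def PhiR (k : Type*) [CommRing k] (r : ℕ) : ExteriorAlgebra k (Fin r → k) →ₗ[k] k :=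
  ExteriorAlgebra.liftAlternating (fun i => if h : i = r then
    (Matrix.detRowAlternating (n := Fin r) (R := k)).domDomCongr (finCongr h.symm) else 0)

/-- determinant of a list of vectors -/
noncomputable def ER (χ : V → (Fin r → k)) (L : List V) : k :=
  PhiR k r ((L.map (fun x => ExteriorAlgebra.ι k (χ x))).prod)

lemma ER_add (χ : V → (Fin r → k)) (hχ : ∀ x y, χ (x + y) = χ x + χ y) (pre : List V) (x y : V)
    (l : List V) : ER χ (pre ++ (x + y) :: l) = ER χ (pre ++ x :: l) + ER χ (pre ++ y :: l) := by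
  simp only [ER, List.map_append, List.map_cons, List.prod_append, List.prod_cons, hχ, map_add,
    mul_add, add_mul]

lemma ER_alt (χ : V → (Fin r → k)) : AltL (ER χ) := by
  intro pre a b l
  simp only [ER, List.map_append, List.map_cons, List.prod_append, List.prod_cons]
  rw [← map_neg]
  congr 1
  have h := ExteriorAlgebra.ι_add_mul_swap (R := k) (χ a) (χ b)
  have h2 : ExteriorAlgebra.ι k (χ a) * ExteriorAlgebra.ι k (χ b) =
      - (ExteriorAlgebra.ι k (χ b) * ExteriorAlgebra.ι k (χ a)) := eq_neg_of_add_eq_zero_left h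
  rw [← mul_assoc (ExteriorAlgebra.ι k (χ a)), h2, ← mul_assoc (ExteriorAlgebra.ι k (χ b)),
    neg_mul, mul_neg]

lemma ER_ofFn (χ : V → (Fin r → k)) (x : Fin r → V) :
    ER χ (List.ofFn x) = Matrix.det (Matrix.of fun i => χ (x i)) := by
  unfold ER
  have h1 : ((List.ofFn x).map (fun x => ExteriorAlgebra.ι k (χ x))).prod =
      ExteriorAlgebra.ιMulti k r (fun i => χ (x i)) := by
    rw [ExteriorAlgebra.ιMulti_apply, List.map_ofFn]
    rfl
  rw [h1, PhiR, ExteriorAlgebra.liftAlternating_apply_ιMulti, dif_pos rfl]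
  rfl

/-- partial sums, any commutative ring -/
theorem vol_ppR (x : Fin r → (Fin r → k)) (a : Fin r → k) :
    HSF.vol r (HSF.pp (· + ·) a (List.ofFn x)) = Matrix.det (Matrix.of x) := by
  classical
  rw [HSF.h25.pp_ofFn]
  set y : Fin r → (Fin r → k) := fun i => a + ∑ j ∈ Finset.univ.filter (fun j : Fin r => j ≤ i), x j with hy
  have hl : (List.ofFn y).length = r := List.length_ofFn
  have e1 : HSF.vol r (a :: List.ofFn y) =
      Matrix.det (Matrix.of fun i j : Fin r => ((List.ofFn y).get (i.cast hl.symm)) j - a j) := dif_pos hl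
  rw [e1]
  set L : Matrix (Fin r) (Fin r) k := Matrix.of fun i j => if j ≤ i then 1 else 0 with hL
  have h1 : (Matrix.of fun i j : Fin r => ((List.ofFn y).get (i.cast hl.symm)) j - a j) = L * Matrix.of x := by
    ext i j
    rw [Matrix.mul_apply, Matrix.of_apply]
    have h2 : (List.ofFn y).get (i.cast hl.symm) = y i := by
      rw [List.get_ofFn]
      rfl
    rw [h2, hy]
    show (a + ∑ j ∈ Finset.univ.filter (fun j : Fin r => j ≤ i), x j) j - a j = _
    rw [Pi.add_apply, add_sub_cancel_left, Finset.sum_apply, Finset.sum_filter]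
    refine Finset.sum_congr rfl fun m _ => ?_
    rw [hL, Matrix.of_apply, Matrix.of_apply]
    split_ifs
    · rw [one_mul]
    · rw [zero_mul]
  rw [h1, Matrix.det_mul]
  have h2 : L.det = 1 := by
    rw [Matrix.det_of_isLowerTriangular]
    · refine Finset.prod_eq_one fun i _ => ?_
      rw [hL, Matrix.of_apply, if_pos le_rfl]
    · intro i j hij
      rw [hL, Matrix.of_apply, if_neg]
      exact not_le.2 hij
  rw [h2, one_mul]

end ext

section matrices
variable {N : ℕ}

lemma toM_opR (q : ℕ) (x y : Ix N →₀ ℕ) :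
    toM (q • mulV x y + (x + y)) = toM x + toM y + (q : ℤ) • (toM x * toM y) := by
  simp only [toM_nsmul, toM_mulV, toM_add]
  abel

lemma mulV_add_left (x x' y : Ix N →₀ ℕ) : mulV (x + x') y = mulV x y + mulV x' y := by
  apply toM_inj
  simp only [toM_mulV, toM_add, add_mul]

lemma mulV_add_right (x y y' : Ix N →₀ ℕ) : mulV x (y + y') = mulV x y + mulV x y' := by
  apply toM_inj
  simp only [toM_mulV, toM_add, mul_add]

lemma op_assocR (q : ℕ) (x y z : Ix N →₀ ℕ) :
    (fun x y => q • mulV x y + (x + y)) ((fun x y => q • mulV x y + (x + y)) x y) z =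
      (fun x y => q • mulV x y + (x + y)) x ((fun x y => q • mulV x y + (x + y)) y z) := by
  apply toM_inj
  simp only [toM_opR]
  simp only [add_mul, mul_add, smul_mul_assoc, mul_smul_comm, smul_add, mul_assoc]
  abel

end matrices

section final
variable {N r : ℕ} {k : Type*} [CommRing k]

/-- the homomorphism to `k ^ r` -/
noncomputable def chR (k : Type*) [CommRing k] {N r : ℕ} (e : Fin r → Ix N) (x : Ix N →₀ ℕ) :
    Fin r → k := fun a => ((HSF.redm (toM x) (e a) : ℤ) : k)

/-- the last entry -/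
noncomputable def chR0 (k : Type*) [CommRing k] {N : ℕ} (x : Ix N →₀ ℕ) : k :=
  (x (Fin.last N, Fin.last N) : k)

lemma chR_add (e : Fin r → Ix N) (x y : Ix N →₀ ℕ) : chR k e (x + y) = chR k e x + chR k e y := by
  funext a
  simp only [chR, HSF.redm, toM_apply, Pi.add_apply, Finsupp.add_apply]
  split_ifs <;> push_cast <;> ring

lemma chR0_add (x y : Ix N →₀ ℕ) : chR0 k (x + y) = chR0 k x + chR0 k y := by
  simp [chR0]

lemma chR_q_smul {q : ℕ} (hq : (q : k) = 0) (e : Fin r → Ix N) (x : Ix N →₀ ℕ) :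
    chR k e (q • x) = 0 := by
  funext a
  simp only [chR, HSF.redm, toM_apply, Finsupp.smul_apply, smul_eq_mul, Pi.zero_apply]
  split_ifs <;> push_cast <;> simp [hq]

lemma chR0_q_smul {q : ℕ} (hq : (q : k) = 0) (x : Ix N →₀ ℕ) : chR0 k (q • x) = 0 := by
  simp [chR0, hq]

lemma chR_zero (e : Fin r → Ix N) : chR k e (0 : Ix N →₀ ℕ) = 0 := by
  funext a
  simp [chR, HSF.redm, toM_apply]

lemma Cg.opR {p M : ℕ} (q : ℕ) {x x' y y' : Ix N →₀ ℕ} (h : Cg p M x x') (h' : Cg p M y y') :
    Cg p M (q • mulV x y + (x + y)) (q • mulV x' y' + (x' + y')) := by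
  intro i j
  rw [toM_opR q, toM_opR q]
  have e : (toM x + toM y + (q : ℤ) • (toM x * toM y)) i j -
      (toM x' + toM y' + (q : ℤ) • (toM x' * toM y')) i j =
      (toM x i j - toM x' i j) + (toM y i j - toM y' i j) +
      (q : ℤ) * ∑ m, ((toM x i m - toM x' i m) * toM y m j +
        toM x' i m * (toM y m j - toM y' m j)) := by
    simp only [Matrix.add_apply, Matrix.smul_apply, Matrix.mul_apply, smul_eq_mul]
    have : ∑ m, ((toM x i m - toM x' i m) * toM y m j + toM x' i m * (toM y m j - toM y' m j)) =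
        ∑ m, toM x i m * toM y m j - ∑ m, toM x' i m * toM y' m j := by
      rw [← Finset.sum_sub_distrib]
      apply Finset.sum_congr rfl
      intro m _
      ring
    rw [this]; ring
  rw [e]
  refine dvd_add (dvd_add (h i j) (h' i j)) (Dvd.dvd.mul_left (Finset.dvd_sum fun m _ =>
    dvd_add (Dvd.dvd.mul_right (h i m) _) (Dvd.dvd.mul_left (h' m j) _)) _)

lemma forall₂_ppR {p M : ℕ} (q : ℕ) {m m' : List (Ix N →₀ ℕ)} (h : List.Forall₂ (Cg p M) m m')
    {a a' : Ix N →₀ ℕ} (ha : Cg p M a a') :
    List.Forall₂ (Cg p M) (pp (fun x y => q • mulV x y + (x + y)) a m)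
      (pp (fun x y => q • mulV x y + (x + y)) a' m') := by
  induction h generalizing a a' with
  | nil => exact List.Forall₂.nil
  | cons h _ ih =>
    rw [pp_cons, pp_cons]
    exact List.Forall₂.cons (Cg.opR q ha h) (ih (Cg.opR q ha h))

lemma hpp_mapR (op : (Ix N →₀ ℕ) → (Ix N →₀ ℕ) → (Ix N →₀ ℕ)) (χ : (Ix N →₀ ℕ) → (Fin r → k))
    (hχ : ∀ x y, χ (op x y) = χ x + χ y) (a : Ix N →₀ ℕ) (m : List (Ix N →₀ ℕ)) :
    (a :: pp op a m).map χ = HSF.pp (· + ·) (χ a) (m.map χ) := by
  induction m generalizing a with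
  | nil => rfl
  | cons x m ih =>
    rw [pp_cons, List.map_cons, ih (op a x), hχ]
    rfl

end final

theorem nv_q {p N M r q s : ℕ} [Fact p.Prime] {k : Type*} [CommRing k]
    (hk : (p : k) ^ s = 0) (hq1 : (q : k) = 0) (hq2 : ((q.choose 2 : ℕ) : k) = 0) (hr1 : 1 ≤ r)
    (e : Fin r → Fin (N + 1) × Fin (N + 1)) (he : Function.Injective e)
    (he' : ∀ ij, (∃ a, e a = ij) ↔ ij ≠ (Fin.last N, Fin.last N))
    (c : List (Matrix (Fin (N + 1)) (Fin (N + 1)) ℤ) → k) (lam : k)
    (hper : ∀ l l' : List (Matrix (Fin (N + 1)) (Fin (N + 1)) ℤ),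
      List.Forall₂ (fun x y => ∀ i j, (p : ℤ) ^ M ∣ x i j - y i j) l l' → c l = c l')
    (hinv : ∀ (a : Matrix (Fin (N + 1)) (Fin (N + 1)) ℤ) l, l.length = r →
      c (l.map fun x => a + x + (q : ℤ) • (a * x)) = c l)
    (hd : ∀ l : List (Matrix (Fin (N + 1)) (Fin (N + 1)) ℤ), l.length = r + 1 →
      HSF.dl c l = lam * HSF.vol r (l.map fun x a => ((HSF.redm x (e a) : ℤ) : k))) : (r.factorial : k) * lam = 0 := by
  classical
  set op : (Ix N →₀ ℕ) → (Ix N →₀ ℕ) → (Ix N →₀ ℕ) := fun x y => q • mulV x y + (x + y) with hop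
  have hassoc := op_assocR (N := N) q
  have hz1 : ∀ x : Ix N →₀ ℕ, op 0 x = x := by
    intro x
    apply toM_inj
    rw [hop]
    simp only [toM_opR q, toM_zero]
    simp
  have hz2 : ∀ x : Ix N →₀ ℕ, op x 0 = x := by
    intro x
    apply toM_inj
    rw [hop]
    simp only [toM_opR q, toM_zero]
    simp
  -- characters
  have hchi : ∀ x y, chR k e (op x y) = chR k e x + chR k e y := by
    intro x y
    rw [hop]
    simp only [chR_add, chR_q_smul hq1, zero_add]
  have hchi0 : ∀ x y, chR0 k (op x y) = chR0 k x + chR0 k y := by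
    intro x y
    rw [hop]
    simp only [chR0_add, chR0_q_smul hq1, zero_add]
  set f : List (Ix N →₀ ℕ) → k := fun m => c ((0 :: pp op 0 m).map toM) with hf
  -- the coboundary of `f`
  have hdf : ∀ m : List (Ix N →₀ ℕ), m.length = r → del op f m = lam * ER (chR k e) m := by
    intro m hm
    rcases m with _ | ⟨x, l⟩
    · simp at hm; omega
    · have h1 := del_of_dl op hassoc 0 hz1 hz2 (fun l => c (l.map toM)) x l (by
        have h2 := hinv (toM x) ((0 :: pp op 0 l).map toM) (by simp at hm ⊢; omega)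
        rw [← h2, List.map_map, List.map_map]
        congr 1
        apply List.map_congr_left
        intro y _
        simp only [Function.comp]
        rw [hop]
        exact toM_opR q x y)
      have h3 : dl (fun l => c (l.map toM)) (0 :: pp op 0 (x :: l)) =
          HSF.dl c ((0 :: pp op 0 (x :: l)).map toM) := by
        rw [dl_eq_dl]
        have : ∀ (g : List (Matrix (Fin (N + 1)) (Fin (N + 1)) ℤ) → k) (L : List (Ix N →₀ ℕ)),
            dl (fun l => g (l.map toM)) L = dl g (L.map toM) := by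
          intro g L
          induction L generalizing g with
          | nil => rfl
          | cons a L ih =>
            rw [dl_cons, List.map_cons, dl_cons]
            congr 1
            exact ih (fun m => g (toM a :: m))
        exact this c _
      have h4 : del op f (x :: l) = dl (fun l => c (l.map toM)) (0 :: pp op 0 (x :: l)) := h1.symm
      rw [h4, h3, hd _ (by simp at hm ⊢; omega), List.map_map]
      congr 1
      have h5 : ((fun (x : Matrix (Fin (N + 1)) (Fin (N + 1)) ℤ) (a : Fin r) =>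
          ((HSF.redm x (e a) : ℤ) : k)) ∘ toM) = chR k e := rfl
      rw [h5, hpp_mapR op (chR k e) hchi, chR_zero]
      obtain ⟨v, hv⟩ : ∃ v : Fin r → (Ix N →₀ ℕ), x :: l = List.ofFn v := by
        subst hm
        exact ⟨(x :: l).get, (List.ofFn_get _).symm⟩
      rw [hv, ER_ofFn, List.map_ofFn, vol_ppR]
      rfl
  set F1 : List (Ix N →₀ ℕ) → k := cupf (chR0 k) f with hF1
  set D : List (Ix N →₀ ℕ) → k := cupf (fun x => - (chR0 k x * lam)) (ER (chR k e)) with hD
  have hcard : Fintype.card (Ix N) = r + 1 := by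
    have h1 : Finset.univ.image e = Finset.univ.erase ((Fin.last N, Fin.last N) : Ix N) := by
      ext ij
      simp only [Finset.mem_image, Finset.mem_univ, true_and, Finset.mem_erase, and_true]
      exact he' ij
    have h2 := congrArg Finset.card h1
    rw [Finset.card_image_of_injective _ he, Finset.card_erase_of_mem (Finset.mem_univ _)] at h2
    rw [Finset.card_univ, Finset.card_univ, Fintype.card_fin] at h2
    have h3 : 0 < Fintype.card (Ix N) := Fintype.card_pos
    have h4 : r = Fintype.card (Ix N) - 1 := h2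
    omega
  have hdF : ∀ Γ : List (Ix N →₀ ℕ), Γ.length = r + 1 → del op F1 Γ = D Γ := by
    intro Γ hΓ
    rcases Γ with _ | ⟨x, _ | ⟨y, l⟩⟩
    · simp at hΓ
    · simp at hΓ; omega
    · rw [hF1, del_cupf op (chR0 k) hchi0 f x y l, hdf (y :: l) (by simpa using hΓ)]
      simp only [hD, cupf]
      ring
  have hMA : MA D := by
    intro pre x y l
    rcases pre with _ | ⟨z, pre⟩
    · simp only [List.nil_append, hD, cupf, chR0_add]; ring
    · simp only [List.cons_append, hD, cupf]
      rw [ER_add (chR k e) (chR_add e)]; ring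
  have hper1 : Per (p ^ (M + s)) F1 := by
    intro pre x i l
    have hcg : ∀ x : Ix N →₀ ℕ, Cg p M (x + Finsupp.single i (p ^ (M + s))) x := by
      intro x i' j'
      rw [toM_add, Matrix.add_apply, add_sub_cancel_left, toM_apply]
      rw [Finsupp.single_apply]
      split_ifs
      · push_cast
        exact pow_dvd_pow _ (Nat.le_add_right M s)
      · simp
    have hchi0p : ∀ x : Ix N →₀ ℕ, chR0 k (x + Finsupp.single i (p ^ (M + s))) = chR0 k x := by
      intro x
      simp only [chR0, Finsupp.add_apply, Finsupp.single_apply]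
      split_ifs
      · push_cast
        rw [show (p : k) ^ (M + s) = 0 by rw [pow_add, hk, mul_zero], add_zero]
      · simp
    rcases pre with _ | ⟨z, pre⟩
    · simp only [List.nil_append, hF1, cupf, hchi0p]
    · simp only [List.cons_append, hF1, cupf]
      congr 1
      simp only [hf]
      apply hper
      rw [List.forall₂_map_left_iff, List.forall₂_map_right_iff]
      refine List.Forall₂.cons (Cg.refl' 0) (forall₂_ppR q ?_ (Cg.refl' 0))
      refine List.rel_append ?_ ?_
      · exact List.forall₂_same.mpr (fun x _ => Cg.refl' x)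
      · exact List.Forall₂.cons (hcg x) (List.forall₂_same.mpr (fun x _ => Cg.refl' x))
  -- the shuffle
  set T : List (Ix N →₀ ℕ) := Finsupp.single (Fin.last N, Fin.last N) 1 ::
    List.ofFn (fun a => Finsupp.single (e a) 1) with hT
  have hTunit : ∀ γ ∈ T, ∃ i, γ = Finsupp.single i 1 := by
    intro γ hγ
    rw [hT, List.mem_cons] at hγ
    rcases hγ with rfl | hγ
    · exact ⟨_, rfl⟩
    · obtain ⟨a, rfl⟩ := List.mem_ofFn.mp hγ
      exact ⟨_, rfl⟩
  have hTlen : T.length = r + 1 := by simp [hT]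
  have hwT : wt T = r + 1 := by
    have : ∀ L : List (Ix N →₀ ℕ), (∀ γ ∈ L, ∃ i, γ = Finsupp.single i 1) → wt L = L.length := by
      intro L hL
      induction L with
      | nil => rfl
      | cons γ L ih =>
        obtain ⟨i, rfl⟩ := hL γ List.mem_cons_self
        rw [wt_cons, ih (fun γ hγ => hL γ (List.mem_cons_of_mem _ hγ))]
        simp; omega
    rw [this T hTunit, hTlen]
  have h0 := shuf_co_eq_zero2 q hq1 hq2 mulV mulV_add_left mulV_add_right hassoc r D
    (fun Γ hlen hwt => co_MA_eq_zero hMA Γ (by omega))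
    (r * (Fintype.card (Ix N) * (p ^ (M + s) * s))) F1
    (fun Γ hlen hwt => co_Per_eq_zero2' p (M + s) s hk hper1 Γ (by rw [hlen]; omega))
    hdF T hTlen (by omega)
  have h1 : shuf T (co D) = shuf T D := by
    apply shuf_perm_congr
    intro m hm
    exact co_MA_units hMA m (fun γ hγ => hTunit γ (hm.mem_iff.mp hγ))
  have hchie : ∀ a b, chR k e (Finsupp.single (e b) 1) a = if a = b then 1 else 0 := by
    intro a b
    have hb : e b ≠ (Fin.last N, Fin.last N) := (he' _).mp ⟨b, rfl⟩
    simp only [chR, HSF.redm, toM_apply, Finsupp.single_apply]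
    rw [if_neg hb]
    simp only [he.eq_iff]
    by_cases hab : a = b
    · subst hab; simp
    · rw [if_neg hab, if_neg (fun h => hab h.symm)]
      simp
  have hchi0e : ∀ b, chR0 k (Finsupp.single (e b) 1 : Ix N →₀ ℕ) = 0 := by
    intro b
    have hb : e b ≠ (Fin.last N, Fin.last N) := (he' _).mp ⟨b, rfl⟩
    simp only [chR0, Finsupp.single_apply]
    rw [if_neg hb]; simp
  have hchi0l : chR0 k (Finsupp.single (Fin.last N, Fin.last N) 1 : Ix N →₀ ℕ) = 1 := by
    simp [chR0]
  have h2 : shuf T D = shuf (List.ofFn (fun a => (Finsupp.single (e a) 1 : Ix N →₀ ℕ)))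
      (fun m => - lam * ER (chR k e) m) := by
    rw [hT, shuf_cons]
    apply shuf_perm_congr
    intro m hm
    rcases m with _ | ⟨y, m⟩
    · simp only [ins_nil, hD, cupf, hchi0l]; ring
    · have hy : chR0 k y = 0 := by
        obtain ⟨a, rfl⟩ := List.mem_ofFn.mp (hm.mem_iff.mp List.mem_cons_self)
        exact hchi0e a
      rw [ins_cons]
      have : (fun m => D (y :: m)) = fun _ => 0 := by
        funext m
        simp only [hD, cupf, hy]; ring
      rw [this, ins_zero]
      simp only [hD, cupf, hchi0l]; ring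
  rw [h1, h2, shuf_mul, shuf_alt _ (ER_alt (chR k e)), ER_ofFn] at h0
  have h3 : (Matrix.of fun i => chR k e (Finsupp.single (e i) 1 : Ix N →₀ ℕ)) = 1 := by
    ext i j
    rw [Matrix.of_apply, hchie, Matrix.one_apply]
    simp only [eq_comm]
  rw [h3, Matrix.det_one, mul_one, List.length_ofFn] at h0
  linear_combination -h0

theorem nv_int2 {p N κ M r s : ℕ} [Fact p.Prime] {k : Type*} [CommRing k]
    (hk : (p : k) ^ s = 0) (hκ : s ≤ κ) (hκ2 : p = 2 → s + 1 ≤ κ) (hr1 : 1 ≤ r)
    (e : Fin r → Fin (N + 1) × Fin (N + 1)) (he : Function.Injective e)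
    (he' : ∀ ij, (∃ a, e a = ij) ↔ ij ≠ (Fin.last N, Fin.last N))
    (c : List (Matrix (Fin (N + 1)) (Fin (N + 1)) ℤ) → k) (lam : k)
    (hper : ∀ l l' : List (Matrix (Fin (N + 1)) (Fin (N + 1)) ℤ),
      List.Forall₂ (fun x y => ∀ i j, (p : ℤ) ^ M ∣ x i j - y i j) l l' → c l = c l')
    (hinv : ∀ (a : Matrix (Fin (N + 1)) (Fin (N + 1)) ℤ) l, l.length = r →
      c (l.map fun x => a + x + (p : ℤ) ^ κ • (a * x)) = c l)
    (hd : ∀ l : List (Matrix (Fin (N + 1)) (Fin (N + 1)) ℤ), l.length = r + 1 →
      HSF.dl c l = lam * HSF.vol r (l.map fun x a => ((HSF.redm x (e a) : ℤ) : k))) :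
    (r.factorial : k) * lam = 0 := by
  have h1 : ((p ^ κ : ℕ) : k) = 0 := by
    push_cast
    obtain ⟨t, rfl⟩ := Nat.exists_eq_add_of_le hκ
    rw [pow_add, hk, zero_mul]
  have h2 : (((p ^ κ).choose 2 : ℕ) : k) = 0 := by
    have hp : p.Prime := Fact.out
    have hdvd : p ^ s ∣ (p ^ κ).choose 2 := by
      have h3 : p ^ κ * (p ^ κ - 1) = (p ^ κ).choose 2 * 2 := by
        have h4 := Nat.add_one_mul_choose_eq (p ^ κ - 1) 1
        rw [Nat.sub_add_cancel (Nat.pos_of_ne_zero (pow_ne_zero κ hp.ne_zero)),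
          Nat.choose_one_right] at h4
        exact h4
      rcases hp.eq_two_or_odd' with h | h
      · subst h
        have h4 : 2 ^ s * 2 ∣ (2 ^ κ).choose 2 * 2 := by
          rw [← pow_succ, ← h3]
          exact Dvd.dvd.mul_right (pow_dvd_pow 2 (hκ2 rfl)) _
        exact Nat.dvd_of_mul_dvd_mul_right (by norm_num) h4
      · have h4 : p ^ s ∣ (p ^ κ).choose 2 * 2 := by
          rw [← h3]
          exact Dvd.dvd.mul_right (pow_dvd_pow p hκ) _
        exact Nat.Coprime.dvd_of_dvd_mul_right
          (Nat.Coprime.pow_left s (Nat.coprime_two_right.mpr h)) h4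
    obtain ⟨t, ht⟩ := hdvd
    rw [ht]
    push_cast
    rw [hk, zero_mul]
  refine nv_q (p := p) (M := M) (q := p ^ κ) hk h1 h2 hr1 e he he' c lam hper ?_ hd
  intro a l hl
  have := hinv a l hl
  push_cast
  exact this

end Pool.Agent.Helper34.TF
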