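import Pool.Agent.TF.Perf

/-!
# Sharp form of the commutator lemma

The commutator form of a non-scalar `N × N` matrix has rank at least `2 N - 2`; spaces of matrices of codimension
at most `N - 2` have commutators spanning all matrices modulo the identity.
-/

set_option autoImplicit false

open Matrix Module

namespace Pool.Agent.Helper34.TF

open Pool.Agent.TF

variable {F : Type*} [Field F] {N : ℕ}

/-- the commutator form of a non-scalar matrix has rank at least `2 N - 2` -/
lemma le_finrank_adF2 {A : Matrix (Fin N) (Fin N) F} (hA : ∀ c : F, A ≠ c • (1 : Matrix (Fin N) (Fin N) F)) :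
    2 * N ≤ finrank F (LinearMap.range (adF A)) + 2 := by
  obtain ⟨v, hv⟩ := exists_vec hA
  -- a functional with `φ v = 0`, `φ (A v) = 1`
  obtain ⟨f, hf⟩ : ∃ f : Dual F (Fin N → F), f v = 0 ∧ f (A *ᵥ v) = 1 := by
    have h2 : A *ᵥ v ∉ Submodule.span F {v} := by
      intro hmem
      obtain ⟨c, hc⟩ := Submodule.mem_span_singleton.1 hmem
      rw [LinearIndependent.pair_iff] at hv
      have h3 := hv c (-1) (by rw [hc, neg_one_smul]; exact add_neg_cancel _)
      exact one_ne_zero (neg_eq_zero.1 h3.2)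
    obtain ⟨g, hg1, hg2⟩ := Submodule.exists_le_ker_of_notMem h2
    refine ⟨(g (A *ᵥ v))⁻¹ • g, ?_, ?_⟩
    · have h3 : g v = 0 := hg2 (Submodule.mem_span_singleton_self v)
      rw [LinearMap.smul_apply, h3, smul_zero]
    · rw [LinearMap.smul_apply, smul_eq_mul, inv_mul_cancel₀ hg1]
  obtain ⟨hf0, hf1⟩ := hf
  set φ : Fin N → F := fun i => f (Pi.single i 1) with hφ
  have hdot : ∀ u : Fin N → F, φ ⬝ᵥ u = f u := by
    intro u
    have h1 : u = ∑ i, u i • (Pi.single i (1 : F) : Fin N → F) := by
      funext j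
      rw [Finset.sum_apply]
      simp [Pi.single_apply]
    conv_rhs => rw [h1]
    rw [map_sum, dotProduct]
    refine Finset.sum_congr rfl fun i _ => ?_
    rw [map_smul, smul_eq_mul, mul_comm]
  set R : (Fin N → F) × (Fin N → F) →ₗ[F] Matrix (Fin N) (Fin N) F :=
    { toFun := fun z => vecMulVec z.1 φ + vecMulVec v z.2
      map_add' := by
        intro z z'
        rw [Prod.fst_add, Prod.snd_add, add_vecMulVec, vecMulVec_add]
        abel
      map_smul' := by
        intro c z
        rw [Prod.smul_fst, Prod.smul_snd, smul_vecMulVec, vecMulVec_smul, RingHom.id_apply, smul_add] } with hR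
  have hker : ∀ z ∈ LinearMap.ker ((adF A).comp R), z.1 ∈ Submodule.span F (Set.range ![v, A *ᵥ v]) ∧
      (z.1 = 0 → z.2 = 0) := by
    intro z hz
    have h1 : A * (vecMulVec z.1 φ + vecMulVec v z.2) - (vecMulVec z.1 φ + vecMulVec v z.2) * A = 0 :=
      eq_zero_of_trF hz
    constructor
    · have h2 : (A * (vecMulVec z.1 φ + vecMulVec v z.2) - (vecMulVec z.1 φ + vecMulVec v z.2) * A) *ᵥ v = 0 := by
        rw [h1, zero_mulVec]
      rw [sub_mulVec, ← mulVec_mulVec, ← mulVec_mulVec, add_mulVec, add_mulVec, vecMulVec_mulVec,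
        vecMulVec_mulVec, vecMulVec_mulVec, vecMulVec_mulVec, hdot, hdot, hf0, hf1] at h2
      have h3 : z.1 = (z.2 ⬝ᵥ v) • (A *ᵥ v) - (z.2 ⬝ᵥ (A *ᵥ v)) • v := by
        have h4 : A *ᵥ (MulOpposite.op (0 : F) • z.1 + MulOpposite.op (z.2 ⬝ᵥ v) • v) =
            (z.2 ⬝ᵥ v) • (A *ᵥ v) := by
          simp [mulVec_smul]
        rw [h4] at h2
        have h5 : (z.2 ⬝ᵥ v) • A *ᵥ v = z.1 + (z.2 ⬝ᵥ (A *ᵥ v)) • v := by
          rw [sub_eq_zero] at h2
          rw [h2, op_smul_eq_smul, op_smul_eq_smul, one_smul]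
        rw [h5, add_sub_cancel_right]
      rw [h3]
      refine Submodule.sub_mem _ (Submodule.smul_mem _ _ (Submodule.subset_span ⟨1, rfl⟩))
        (Submodule.smul_mem _ _ (Submodule.subset_span ⟨0, rfl⟩))
    · intro hz0
      rw [hz0, zero_vecMulVec, zero_add] at h1
      have h2 : φ ᵥ* (A * vecMulVec v z.2 - vecMulVec v z.2 * A) = 0 := by
        rw [h1, vecMul_zero]
      rw [vecMul_sub, ← vecMul_vecMul, ← vecMul_vecMul, vecMul_vecMulVec, vecMul_vecMulVec, hdot, hf0,
        zero_smul, zero_vecMul, sub_zero, ← dotProduct_mulVec, hdot, hf1, one_smul] at h2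
      exact h2
  have hkd : finrank F (LinearMap.ker ((adF A).comp R)) ≤ 2 := by
    set g : LinearMap.ker ((adF A).comp R) →ₗ[F] (Submodule.span F (Set.range ![v, A *ᵥ v])) :=
      LinearMap.codRestrict _ ((LinearMap.fst F _ _).comp (Submodule.subtype _))
        (fun z => (hker z.1 z.2).1) with hg
    have hinj : Function.Injective g := by
      rw [← LinearMap.ker_eq_bot, Submodule.eq_bot_iff]
      intro z hz
      have h1 : z.1.1 = 0 := congrArg Subtype.val hz
      have h2 := (hker z.1 z.2).2 h1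
      exact Subtype.ext (Prod.ext h1 h2)
    calc finrank F (LinearMap.ker ((adF A).comp R)) ≤
        finrank F (Submodule.span F (Set.range ![v, A *ᵥ v])) := LinearMap.finrank_le_finrank_of_injective hinj
      _ ≤ Fintype.card (Fin 2) := finrank_range_le_card _
      _ = 2 := by simp
  have h1 := LinearMap.finrank_range_add_finrank_ker ((adF A).comp R)
  have h2 : finrank F ((Fin N → F) × (Fin N → F)) = N + N := by
    rw [Module.finrank_prod, finrank_fintype_fun_eq_card, Fintype.card_fin]
  have h3 : finrank F (LinearMap.range ((adF A).comp R)) ≤ finrank F (LinearMap.range (adF A)) :=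
    Submodule.finrank_mono (LinearMap.range_comp_le_range _ _)
  omega

/-- **Commutators of large spaces of matrices**, sharp form. -/
theorem perf2 (hN : (N : F) ≠ 0) {D : ℕ} (hD : D + 1 < N) (V : Submodule F (Matrix (Fin N) (Fin N) F))
    (hV : N * N ≤ finrank F V + D) :
    Submodule.span F ({Z | ∃ X ∈ V, ∃ Y ∈ V, Z = X * Y - Y * X} ∪ {1}) = ⊤ := by
  by_contra hne
  obtain ⟨f, hf0, hf⟩ := Submodule.exists_le_ker_of_lt_top _ (lt_top_iff_ne_top.2 hne)
  obtain ⟨A, rfl⟩ := exists_trF f
  have hker : ∀ Z ∈ ({Z | ∃ X ∈ V, ∃ Y ∈ V, Z = X * Y - Y * X} ∪ {1} : Set (Matrix (Fin N) (Fin N) F)), trF A Z = 0 :=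
    fun Z hZ => hf (Submodule.subset_span hZ)
  have hA : ∀ c : F, A ≠ c • (1 : Matrix (Fin N) (Fin N) F) := by
    intro c hc
    have h1 := hker 1 (Or.inr rfl)
    rw [trF_apply, mul_one, hc, trace_smul, trace_one, Fintype.card_fin, smul_eq_mul] at h1
    have h2 : c = 0 := (mul_eq_zero.1 h1).resolve_right hN
    apply hf0
    rw [hc, h2, zero_smul]
    refine LinearMap.ext fun Y => ?_
    rw [trF_apply, zero_mul, trace_zero, LinearMap.zero_apply]
  have hle : V.map (adF A) ≤ V.dualAnnihilator := by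
    rintro _ ⟨X, hX, rfl⟩
    rw [Submodule.mem_dualAnnihilator]
    intro Y hY
    rw [adF_apply]
    exact hker _ (Or.inl ⟨X, hX, Y, hY, rfl⟩)
  have h1 : finrank F (V.map (adF A)) ≤ finrank F V.dualAnnihilator := Submodule.finrank_mono hle
  have h2 : finrank F V + finrank F V.dualAnnihilator = finrank F (Matrix (Fin N) (Fin N) F) :=
    Subspace.finrank_add_finrank_dualAnnihilator_eq V
  have h3 : finrank F (Matrix (Fin N) (Fin N) F) = N * N := by
    rw [finrank_matrix, Fintype.card_fin, finrank_self, mul_one]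
  -- the rank on `V`
  have h4 : finrank F (LinearMap.range (adF A)) ≤ finrank F (V.map (adF A)) + (N * N - finrank F V) := by
    obtain ⟨W, hW⟩ := V.exists_isCompl
    have e1 : LinearMap.range (adF A) = V.map (adF A) ⊔ W.map (adF A) := by
      rw [← Submodule.map_sup, hW.sup_eq_top, LinearMap.range_eq_map]
    rw [e1]
    have e2 : finrank F V + finrank F W = N * N := by
      rw [← h3]
      exact Submodule.finrank_add_eq_of_isCompl hW
    have e3 : finrank F (W.map (adF A)) ≤ finrank F W := Submodule.finrank_map_le _ _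
    have e4 := Submodule.finrank_add_le_finrank_add_finrank (V.map (adF A)) (W.map (adF A))
    omega
  have h5 := le_finrank_adF2 hA
  omega

end Pool.Agent.Helper34.TF
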